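import Pool.Agent.W981.Loc.Gen

/-!
# A local maximum of the potential is a global maximum of the rank
-/

set_option autoImplicit false
set_option linter.unusedSectionVars false

namespace Pool.Agent.W981.Loc

open Pool.Agent.W981.Hyp Pool.Agent.W981.Blk Module Matrix MvPolynomial
open Pool.Agent.W981.Aff (imB gaf rk exists_poly_minor le_rk det_map_sub det_deg afs)

section stack

variable {F : Type*} [Field F] {n m : Type*} [Fintype n] [Fintype m]

/-- the matrix `M` with the row `v` below -/
def stk {R : Type*} (M : Matrix m n R) (v : n → R) : Matrix (m ⊕ Unit) n R :=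
  Matrix.fromRows M (Matrix.of fun _ => v)

theorem stk_mulVec (M : Matrix m n F) (v x : n → F) :
    stk M v *ᵥ x = 0 ↔ M *ᵥ x = 0 ∧ v ⬝ᵥ x = 0 := by
  rw [stk, fromRows_mulVec]
  constructor
  · intro h
    refine ⟨funext fun i => ?_, ?_⟩
    · exact congrFun h (Sum.inl i)
    · exact congrFun h (Sum.inr ())
  · rintro ⟨h1, h2⟩
    funext i
    rcases i with i | i
    · exact congrFun h1 i
    · exact h2

theorem ker_stk_le (M : Matrix m n F) (v : n → F) :
    LinearMap.ker (stk M v).mulVecLin ≤ LinearMap.ker M.mulVecLin := by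
  intro x hx
  exact ((stk_mulVec M v x).1 hx).1

theorem rank_add_ker {m : Type*} [Fintype m] (M : Matrix m n F) :
    M.rank + finrank F (LinearMap.ker M.mulVecLin) = Fintype.card n := by
  have e1 := LinearMap.finrank_range_add_finrank_ker M.mulVecLin
  rw [finrank_fintype_fun_eq_card] at e1
  exact e1

theorem rank_le_stk (M : Matrix m n F) (v : n → F) : M.rank ≤ (stk M v).rank := by
  have h1 := Submodule.finrank_mono (ker_stk_le M v)
  have e1 := rank_add_ker M
  have e2 := rank_add_ker (stk M v)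
  omega

theorem rank_stk_le {M : Matrix m n F} {v : n → F} (h : ∀ x, M *ᵥ x = 0 → v ⬝ᵥ x = 0) :
    (stk M v).rank ≤ M.rank := by
  have h1 : LinearMap.ker M.mulVecLin ≤ LinearMap.ker (stk M v).mulVecLin := by
    intro x hx
    exact (stk_mulVec M v x).2 ⟨hx, h x hx⟩
  have h2 := Submodule.finrank_mono h1
  have e1 := rank_add_ker M
  have e2 := rank_add_ker (stk M v)
  omega

theorem dot_of_stk_le {M : Matrix m n F} {v : n → F} (h : (stk M v).rank ≤ M.rank) {x : n → F}
    (hx : M *ᵥ x = 0) : v ⬝ᵥ x = 0 := by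
  have h1 : LinearMap.ker (stk M v).mulVecLin = LinearMap.ker M.mulVecLin := by
    refine Submodule.eq_of_le_of_finrank_le (ker_stk_le M v) ?_
    have e1 := rank_add_ker M
    have e2 := rank_add_ker (stk M v)
    omega
  have h2 : x ∈ LinearMap.ker (stk M v).mulVecLin := by
    rw [h1]
    exact hx
  exact ((stk_mulVec M v x).1 h2).2

theorem rank_stk_zero (M : Matrix m n F) : (stk M 0).rank = M.rank :=
  le_antisymm (rank_stk_le fun x _ => zero_dotProduct x) (rank_le_stk M 0)

theorem rank_pert [DecidableEq n] [DecidableEq m] {L N : Matrix m n F} {G : Matrix n m F}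
    (hG : L * G * L = L) {t : F} (ht : (1 + t • (G * N)).det ≠ 0) :
    L.rank ≤ (L + t • N).rank := by
  have hR : (1 + t • (G * N)) * ((1 + t • (G * N)).det⁻¹ • (1 + t • (G * N)).adjugate) = 1 := by
    rw [Matrix.mul_smul, Matrix.mul_adjugate, smul_smul, inv_mul_cancel₀ ht, one_smul]
  obtain ⟨R, hR'⟩ : ∃ R, R = (1 + t • (G * N)).det⁻¹ • (1 + t • (G * N)).adjugate := ⟨_, rfl⟩
  rw [← hR'] at hR
  have h1 := pert_eq hG t R hR
  have h2 : (L * G) * ((L + t • N) * R) = L := by
    rw [h1, Matrix.mul_add, hG, ← Matrix.mul_assoc, Matrix.mul_sub, Matrix.mul_one,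
      ← Matrix.mul_assoc (L * G) L G, hG, sub_self, Matrix.zero_mul, add_zero]
  calc L.rank = ((L * G) * ((L + t • N) * R)).rank := by rw [h2]
    _ ≤ ((L + t • N) * R).rank := Matrix.rank_mul_le_right _ _
    _ ≤ _ := Matrix.rank_mul_le_left _ _

end stack

section fam

variable {σ K : Type*} [Field K] [Fintype σ] {n m : Type*} [Fintype n] [Fintype m]

/-- the matrix at a point -/
def pt (B : Matrix m n K) (A : σ → Matrix m n K) (lam : σ → K) : Matrix m n K :=
  B + ∑ k, lam k • A k

theorem LL_self (B : Matrix m n K) (A : σ → Matrix m n K) (P : σ → K) :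
    LL K B A P = pt B A P := by
  ext i j
  simp [LL, pt]

theorem LL_stk (F : Type*) [Field F] [Algebra K F] (B : Matrix m n K) (A : σ → Matrix m n K)
    (v : n → K) (P : σ → F) :
    LL F (stk B v) (fun k => stk (A k) 0) P = stk (LL F B A P) (up F v) := by
  ext i j
  rcases i with i | i
  · simp [LL, stk, Matrix.sum_apply]
  · simp [LL, stk, Matrix.sum_apply, up]

theorem LL_add {F : Type*} [Field F] [Algebra K F] (B : Matrix m n K) (A : σ → Matrix m n K)
    (P x : σ → F) : LL F B A (fun k => P k + x k) =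
      LL F B A P + ∑ k, x k • (A k).map (algebraMap K F) := by
  rw [LL, LL, add_assoc, ← Finset.sum_add_distrib]
  congr 1
  exact Finset.sum_congr rfl fun k _ => add_smul _ _ _

end fam

section fin

variable {K : Type*} [Field K] {n m : Type*} [Fintype n] [Fintype m] {s : ℕ}

theorem gp_le {F : Type*} [Field F] [Algebra K F] (B : Matrix m n K) (A : Fin s → Matrix m n K)
    {h : ℕ} (y z : Fin h → F) :
    (LL F B A (gp y z)).rank ≤ rk (MM B A (gX K s h)) := by
  have h1 := spec_le B A (gX K s h)
    (aeval (R := K) (fun p : Fin h × Bool => if p.2 then z p.1 else y p.1))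
  simpa only [aeval_gX, Bool.false_eq_true, if_false, if_true] using h1

theorem rank_zero_le (B : Matrix m n K) (A : Fin s → Matrix m n K) (h : ℕ) :
    B.rank ≤ rk (MM B A (gX K s h)) := by
  have h1 := gp_le B A (F := K) (h := h) 0 0
  rw [LL_self] at h1
  have h2 : pt B A (gp (0 : Fin h → K) 0 : Fin s → K) = B := by
    rw [pt]
    have : ∀ k, (gp (0 : Fin h → K) 0 : Fin s → K) k = 0 := fun k => gp_zero 0 k
    simp only [this, zero_smul, Finset.sum_const_zero, add_zero]
  rwa [h2] at h1

theorem ranks_eq [CharZero K] {κ : Type*} [Fintype κ] (B : κ → Matrix m n K)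
    (A : Fin s → Matrix m n K) (h : ℕ)
    (hloc : ∀ y z : Fin h → ℕ, ∑ j, (y j + z j) ≤ Fintype.card κ * (Fintype.card n * s) →
      ∑ i, (pt (B i) A (gp (fun j => (y j : K)) fun j => (z j : K))).rank ≤ ∑ i, (B i).rank) (i : κ) :
    rk (MM (B i) A (gX K s h)) = (B i).rank := by
  obtain ⟨lam, h1, h2⟩ := exists_common_point (fun i => MM (B i) A (gX K s h)) (d := s)
    fun i p q => MM_totalDegree _ _ _ (totalDegree_gX K s h) p q
  have h3 : ∀ i, (MM (B i) A (gX K s h)).map (eval fun k => (lam k : K)) =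
      pt (B i) A (gp (fun j => (lam (j, false) : K)) fun j => (lam (j, true) : K)) := by
    intro i
    have h4 := map_MM (B i) A (gX K s h) (aeval (R := K) fun k => (lam k : K))
    rw [LL_self] at h4
    have h5 : (fun k => aeval (R := K) (fun k => (lam k : K)) (gX K s h k)) =
        gp (fun j => (lam (j, false) : K)) fun j => (lam (j, true) : K) := by
      funext k
      rw [aeval_gX]
    rw [h5] at h4
    exact h4
  have h4 : ∑ j, (lam (j, false) + lam (j, true)) = ∑ k, lam k := by
    rw [Fintype.sum_prod_type]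
    refine Finset.sum_congr rfl fun j _ => ?_
    rw [Fintype.sum_bool, add_comm]
  have h5 : ∑ i, rk (MM (B i) A (gX K s h)) * s ≤ Fintype.card κ * (Fintype.card n * s) := by
    refine (Finset.sum_le_card_nsmul _ _ (Fintype.card n * s) fun i _ => ?_).trans ?_
    · refine Nat.mul_le_mul_right _ ?_
      rw [rk]
      exact Matrix.rank_le_card_width _
    · rw [Finset.card_univ, smul_eq_mul]
  have h6 := hloc (fun j => lam (j, false)) (fun j => lam (j, true)) (by
    rw [h4]
    exact h1.trans h5)
  have h7 : ∑ i, (B i).rank = ∑ i, rk (MM (B i) A (gX K s h)) := by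
    refine le_antisymm (Finset.sum_le_sum fun i _ => rank_zero_le (B i) A h) ?_
    refine (Finset.sum_le_sum fun i _ => ?_).trans h6
    rw [← h3]
    exact h2 i
  exact ((Finset.sum_eq_sum_iff_of_le fun i _ => rank_zero_le (B i) A h).1 h7 i
    (Finset.mem_univ i)).symm

theorem allGood {F ι : Type*} [Field F] [Algebra K F] [CharZero F] [DecidableEq n]
    [DecidableEq m]
    (B : Matrix m n K) (A : Fin s → Matrix m n K) (v : ι → n → K) {h : ℕ} (y z : Fin h → F)
    (h0 : rk (MM B A (gX K s (h + 3))) ≤ (LL F B A (gp y z)).rank)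
    (h1 : ∀ i, rk (MM (stk B (v i)) (fun k => stk (A k) 0) (gX K s (h + 3))) ≤
      (stk (LL F B A (gp y z)) (up F (v i))).rank) :
    AllGood A v (LL F B A (gp y z)) := by
  intro μ hμ
  obtain ⟨L, hL⟩ : ∃ L, L = LL F B A (gp y z) := ⟨_, rfl⟩
  rw [← hL] at h0 h1 ⊢
  have hinf : Infinite F := CharZero.infinite F
  obtain ⟨G, hG⟩ := exists_ginv L
  have h2 : ({t : F | (1 + t • (G * Nmu F A μ)).det = 0}ᶜ).Infinite :=
    (det_finite _).infinite_compl
  refine h2.mono fun t ht => ?_
  have h3 := rank_pert hG (N := Nmu F A μ) ht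
  obtain ⟨y', z', hyz⟩ := gp_real 3 (Finset.univ.filter fun k => μ k ≠ 0)
    (fun k => t * (μ k : F)) (by
      refine le_trans ?_ hμ
      rw [Finset.card_eq_sum_ones]
      refine (Finset.sum_le_sum (g := μ) fun k hk => ?_).trans
        (Finset.sum_le_sum_of_subset (Finset.filter_subset _ _))
      have h4 : μ k ≠ 0 := (Finset.mem_filter.1 hk).2
      omega) (fun k hk => by
      have h4 : μ k = 0 := by
        by_contra h5
        exact hk (Finset.mem_filter.2 ⟨Finset.mem_univ _, h5⟩)
      rw [h4, Nat.cast_zero, mul_zero])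
  have h4 : (gp (Fin.append y y') (Fin.append z z') : Fin s → F) =
      fun k => gp y z k + t * (μ k : F) := by
    funext k
    rw [gp_append, hyz]
  have h5 : LL F B A (gp (Fin.append y y') (Fin.append z z')) = L + t • Nmu F A μ := by
    rw [h4, LL_add, ← hL, Nmu, Finset.smul_sum]
    congr 1
    refine Finset.sum_congr rfl fun k _ => ?_
    rw [smul_smul]
    rfl
  refine ⟨?_, ?_⟩
  · rw [← h5]
    exact (gp_le B A _ _).trans h0
  · rintro _ ⟨i, rfl, hi⟩ x hx
    refine dot_of_stk_le ?_ hx
    have h6 := gp_le (F := F) (stk B (v i)) (fun k => stk (A k) 0) (Fin.append y y')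
      (Fin.append z z')
    rw [LL_stk, h5] at h6
    exact (h6.trans (h1 i)).trans ((rank_stk_le hi).trans h3)

end fin

section blk

universe w

variable {σ : Type*} {K : Type w} [Field K] [Fintype σ] {n m : Type*} [Fintype n] [Fintype m]

/-- the rank of a block as the rank of a small family, at all points over all extensions -/
theorem two_ranks' (B : Matrix m n K) (A : σ → Matrix m n K) {U₁ U₂ : Submodule K (n → K)}
    (h : U₁ ≤ U₂) : ∃ (d : ℕ) (B' : Matrix m (Fin d) K) (A' : σ → Matrix m (Fin d) K),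
      finrank K U₁ + d = finrank K U₂ ∧
      ∀ (F : Type w) [Field F] [Algebra K F] (P : σ → F),
        finrank F ((ext F U₂).map (LL F B A P).mulVecLin ⊔ ext F (imB B A U₁) :
          Submodule F (m → F)) = finrank K (imB B A U₁) + (LL F B' A' P).rank := by
  classical
  obtain ⟨d, P, hd, hP, hPF⟩ := exists_columns h
  obtain ⟨Φ, h1, h2⟩ := exists_ker (imB B A U₁)
  refine ⟨d, Φ * B * P, fun k => Φ * A k * P, hd, fun F _ _ p => ?_⟩
  have e1 := blk_rank (LL F B A p).mulVecLin (Φ.map (algebraMap K F)).mulVecLin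
    (P.map (algebraMap K F)).mulVecLin (ext F U₁) (ext F U₂)
    (ext F (imB B A U₁)) (ker_ext h1 h2) (hPF F) (map_L_le ⟨p, rfl⟩ U₁)
  rw [e1, finrank_ext]
  congr 1
  rw [← mulVecLin_mul, ← mulVecLin_mul]
  have e2 : LL F (Φ * B * P) (fun k => Φ * A k * P) p = Φ.map (algebraMap K F) *
      (LL F B A p * P.map (algebraMap K F)) := by
    rw [LL, LL, Matrix.add_mul, Matrix.mul_add]
    congr 1
    · rw [Matrix.map_mul, Matrix.map_mul, Matrix.mul_assoc]
    · rw [Matrix.sum_mul, Matrix.mul_sum]
      refine Finset.sum_congr rfl fun k _ => ?_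
      rw [Matrix.map_mul, Matrix.map_mul, Matrix.smul_mul, Matrix.mul_smul, Matrix.mul_assoc]
  rw [e2]
  rfl

theorem gaf_eq_LL (B : Matrix m n K) (A : σ → Matrix m n K) :
    gaf B A = LL (FF σ K) B A (tt K) := rfl

end blk

section core

universe w

variable {K : Type w} [Field K] [CharZero K] {n m : Type} [Fintype n] [Fintype m] {s : ℕ}

/-- a family with few columns has its generic rank at the generic point of the generator -/
theorem small_hit (B : Matrix m n K) (A : Fin s → Matrix m n K) {d : ℕ}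
    (hd : Fintype.card n ≤ d) :
    (gaf B A).rank ≤ rk (MM B A (gX K s d)) := by
  classical
  have h1 := Pool.Agent.W981.Aff.rank_gaf B A
  obtain ⟨e, f, h⟩ := exists_poly_minor (afs B A) h1.le
  have h2 : ((afs B A).submatrix e f).det.totalDegree ≤ d := by
    refine (det_deg (d := 1) _ fun i j => Pool.Agent.W981.Aff.afs_entry B A _ _).trans ?_
    rw [mul_one]
    exact (Matrix.rank_le_card_width _).trans hd
  have h3 := hit h h2
  refine le_rk _ e f ?_
  have h4 : (MM B A (gX K s d)).submatrix e f =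
      ((afs B A).submatrix e f).map (aeval (gX K s d)).toRingHom := by
    ext i j
    have h : ∀ c : K, (aeval (R := K) (gX K s d)).toRingHom (C c) = C c := fun c => by
      change aeval (gX K s d) (C c) = C c
      rw [aeval_C, algebraMap_eq]
    have h' : ∀ k : Fin s, (aeval (R := K) (gX K s d)).toRingHom
        (X k : MvPolynomial (Fin s) K) = gX K s d k := fun k => aeval_X _ k
    simp only [MM, afs, sym, Matrix.map_apply, Matrix.submatrix_apply, Matrix.add_apply,
      Matrix.sum_apply, Matrix.smul_apply, smul_eq_mul, map_add, map_sum, map_mul, h, h']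
  rw [h4, ← RingHom.mapMatrix_apply, ← RingHom.map_det]
  exact h3

/-- **The core theorem**: if the potential is maximal at the origin among all points of the
generator with small seeds, then the rank at the origin is the generic rank. -/
theorem core0 {ι : Type} [Fintype ι] [DecidableEq n] [DecidableEq m]
    (B : Matrix m n K) (A : Fin s → Matrix m n K)
    (u : ι → m → K) (v : ι → n → K) (a : Fin s → ι → K)
    (hA : ∀ k, A k = ∑ i, a k i • vecMulVec (u i) (v i)) {c : ℕ}
    (hc : Fintype.card ι ≤ finrank K (WW a) + c)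
    (hloc : ∀ y z : Fin (16 * c + 3) → ℕ,
      ∑ j, (y j + z j) ≤ (Fintype.card ι + 1) * (Fintype.card n * s) →
      (pt B A (gp (fun j => (y j : K)) fun j => (z j : K))).rank +
        ∑ i, (stk (pt B A (gp (fun j => (y j : K)) fun j => (z j : K))) (v i)).rank ≤
      B.rank + ∑ i, (stk B (v i)).rank) :
    (gaf B A).rank ≤ B.rank := by
  classical
  -- the stacked families
  obtain ⟨v', hv'⟩ : ∃ v' : Option ι → n → K, v' = fun o => o.elim 0 v := ⟨_, rfl⟩
  have hpt : ∀ (w : n → K) (lam : Fin s → K), pt (stk B w) (fun k => stk (A k) 0) lam =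
      stk (pt B A lam) w := by
    intro w lam
    rw [← LL_self, LL_stk, LL_self]
    rfl
  have h1 := ranks_eq (fun o => stk B (v' o)) (fun k => stk (A k) 0) (16 * c + 3)
    (fun y z hyz => by
      have h2 := hloc y z (by rwa [Fintype.card_option] at hyz)
      simp only [hpt, Fintype.sum_option, hv', Option.elim_none, Option.elim_some,
        rank_stk_zero]
      exact h2)
  have h0 : rk (MM B A (gX K s (16 * c + 3))) = B.rank := by
    have h3 := h1 none
    rw [hv'] at h3
    simp only [Option.elim_none, rank_stk_zero] at h3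
    rw [← h3, rk_MM, rk_MM, LL_stk]
    have : up (FF (Fin (16 * c + 3) × Bool) K) (0 : n → K) = 0 := by
      funext j
      simp [up]
    rw [this, rank_stk_zero]
  have h2 : ∀ i, rk (MM (stk B (v i)) (fun k => stk (A k) 0) (gX K s (16 * c + 3))) =
      (stk B (v i)).rank := by
    intro i
    have h3 := h1 (some i)
    rw [hv'] at h3
    exact h3
  clear hloc h1 hpt hv' v'
  -- the generic point of the generator
  obtain ⟨F, hF⟩ : ∃ F, F = FF (Fin (16 * c) × Bool) K := ⟨_, rfl⟩
  have hchar : CharZero (FF (Fin (16 * c) × Bool) K) :=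
    charZero_of_injective_algebraMap (algebraMap K (FF (Fin (16 * c) × Bool) K)).injective
  have hinfF : Infinite (FF (Fin (16 * c) × Bool) K) := CharZero.infinite _
  obtain ⟨Y, hY⟩ : ∃ Y : Fin (16 * c) → FF (Fin (16 * c) × Bool) K,
    Y = fun j => algebraMap (MvPolynomial _ K) _ (X (j, false)) := ⟨_, rfl⟩
  obtain ⟨Z, hZ⟩ : ∃ Z : Fin (16 * c) → FF (Fin (16 * c) × Bool) K,
    Z = fun j => algebraMap (MvPolynomial _ K) _ (X (j, true)) := ⟨_, rfl⟩
  have hYZ : (fun k => algebraMap (MvPolynomial (Fin (16 * c) × Bool) K)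
      (FF (Fin (16 * c) × Bool) K) (gX K s (16 * c) k)) = gp Y Z := by
    funext k
    rw [gX, map_gp, hY, hZ]
  have hrk : ∀ {m' n' : Type} [Fintype m'] [Fintype n'] (B : Matrix m' n' K)
      (A : Fin s → Matrix m' n' K), rk (MM B A (gX K s (16 * c))) =
      (LL (FF (Fin (16 * c) × Bool) K) B A (gp Y Z)).rank := by
    intro m' n' _ _ B A
    rw [rk_MM, hYZ]
  obtain ⟨L, hL⟩ : ∃ L, L = LL (FF (Fin (16 * c) × Bool) K) B A (gp Y Z) := ⟨_, rfl⟩
  have hgood : AllGood A v L := by
    rw [hL]
    refine allGood B A v Y Z ?_ fun i => ?_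
    · rw [h0, ← hrk]
      exact rank_zero_le B A _
    · rw [h2, ← LL_stk, ← hrk]
      exact rank_zero_le _ _ _
  have hLB : L.rank ≤ B.rank := by
    have h3 := gp_le (F := FF (Fin (16 * c) × Bool) K) B A (Fin.append Y (0 : Fin 3 → _))
      (Fin.append Z (0 : Fin 3 → _))
    rw [h0] at h3
    have h4 : (gp (Fin.append Y (0 : Fin 3 → _)) (Fin.append Z (0 : Fin 3 → _)) :
        Fin s → FF (Fin (16 * c) × Bool) K) = gp Y Z := by
      funext k
      rw [gp_append, gp_zero, add_zero]
    rwa [h4, ← hL] at h3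
  refine le_trans ?_ hLB
  obtain ⟨U₁, U₂, hU, hd, -, hcert⟩ := local_blocks B A u v a L hA ⟨_, hL⟩ hgood hc
  obtain ⟨d, B', A', hd', hb⟩ := two_ranks' B A hU
  have h3 := Pool.Agent.W981.Aff.pair_upper B A U₁ U₂
  have h4 := hb (FF (Fin s) K) (tt K)
  rw [← gaf_eq_LL, ← gaf_eq_LL] at h4
  have h5 := hb (FF (Fin (16 * c) × Bool) K) (gp Y Z)
  rw [← hL] at h5
  have h6 := small_hit B' A' (d := 16 * c) (by rw [Fintype.card_fin]; omega)
  rw [hrk] at h6
  omega

end core

end Pool.Agent.W981.Loc
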