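import Pool.Agent.W981.Aff.Dims

/-!
# The dimension counts at a point
-/

set_option autoImplicit false
set_option linter.unusedSectionVars false

namespace Pool.Agent.W981.Loc

open Pool.Agent.W981.Hyp Pool.Agent.W981.Blk Module Matrix
open Pool.Agent.W981.Aff (Alg imB)

section main

variable {σ ι K F : Type*} [Field K] [Field F] [Algebra K F] [DecidableEq σ] [Fintype σ]
  [Fintype ι]
  {n m : Type*} [Fintype n] [Fintype m]

/-- the parametrisation of the extension of `W` -/
noncomputable def kap (F : Type*) [Field F] [Algebra K F] (a : σ → ι → K) :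
    (σ → F) →ₗ[F] (ι → F) :=
  Fintype.linearCombination F fun k => up F (a k)

theorem ext_le_range (a : σ → ι → K) : ext F (WW a) ≤ LinearMap.range (kap F a) := by
  rw [ext_le_iff]
  intro w hw
  rw [WW] at hw
  induction hw using Submodule.span_induction with
  | mem x hx =>
    obtain ⟨k, rfl⟩ := hx
    rw [kap, Fintype.range_linearCombination]
    exact Submodule.subset_span ⟨k, rfl⟩
  | zero => rw [up_zero]; exact Submodule.zero_mem _
  | add x y _ _ hx hy => rw [up_add]; exact Submodule.add_mem _ hx hy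
  | smul c x _ hx => rw [up_smul]; exact Submodule.smul_mem _ _ hx

/-- the values `w · u_i` -/
def om (u : ι → m → K) (w : m → F) (i : ι) : F := w ⬝ᵥ up F (u i)

/-- the values `v_i · z` -/
def zt (v : ι → n → K) (z : n → F) (i : ι) : F := up F (v i) ⬝ᵥ z

theorem nu_apply (u : ι → m → K) (v : ι → n → K) (w : m → F) (x : n → F) (i : ι) :
    nu u v w x i = om u w i * zt v x i := rfl

/-- the map `φ` -/
noncomputable def phi (u : ι → m → K) (v : ι → n → K) (w : m → F)
    (wJ : (σ → F) →ₗ[F] (m → F)) (z : n → F) (zJ : (σ → F) →ₗ[F] (n → F)) :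
    (σ → F) →ₗ[F] (ι → F) where
  toFun c := fun i => zt v z i * om u (wJ c) i + om u w i * zt v (zJ c) i
  map_add' x y := by
    funext i
    simp only [om, zt, map_add, add_dotProduct, dotProduct_add, Pi.add_apply]
    ring
  map_smul' c x := by
    funext i
    simp only [om, zt, map_smul, smul_dotProduct, dotProduct_smul, smul_eq_mul, Pi.smul_apply,
      RingHom.id_apply]
    ring

/-- the map `s` -/
noncomputable def sf (u : ι → m → K) (v : ι → n → K) (w : m → F) (z : n → F)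
    (zJ : (σ → F) →ₗ[F] (n → F)) : (σ → F) →ₗ[F] (ι → F) where
  toFun c := fun i => om u w i * (om u w i * zt v z i)⁻¹ * zt v (zJ c) i
  map_add' x y := by
    funext i
    simp only [zt, map_add, dotProduct_add, Pi.add_apply]
    ring
  map_smul' c x := by
    funext i
    simp only [zt, map_smul, dotProduct_smul, smul_eq_mul, Pi.smul_apply, RingHom.id_apply]
    ring

theorem sf_apply (u : ι → m → K) (v : ι → n → K) (w : m → F) (z : n → F)
    (zJ : (σ → F) →ₗ[F] (n → F)) (c : σ → F) (i : ι) : sf u v w z zJ c i =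
      om u w i * (om u w i * zt v z i)⁻¹ * zt v (zJ c) i := rfl

/-- the weights -/
def et (u : ι → m → K) (v : ι → n → K) (w : m → F) (z : n → F) :
    ι → F := fun i => om u w i * zt v z i

/-- the third order form -/
noncomputable def q3 (u : ι → m → K) (v : ι → n → K) (a : σ → ι → K)
    (wJ : (σ → F) →ₗ[F] (m → F)) (zJ : (σ → F) →ₗ[F] (n → F)) (c b d : σ → F) : F :=
  wJ c ⬝ᵥ BB u v (kap F a b) (zJ d)

/-- the symmetrised form -/
noncomputable def s3 (u : ι → m → K) (v : ι → n → K) (a : σ → ι → K)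
    (wJ : (σ → F) →ₗ[F] (m → F)) (zJ : (σ → F) →ₗ[F] (n → F)) (b c d : σ → F) : F :=
  q3 u v a wJ zJ d c b + q3 u v a wJ zJ d b c + (q3 u v a wJ zJ c d b + q3 u v a wJ zJ c b d) +
    (q3 u v a wJ zJ b d c + q3 u v a wJ zJ b c d)

/-- The data of the argument at a point. -/
structure DatL (B : Matrix m n K) (A : σ → Matrix m n K) (u : ι → m → K) (v : ι → n → K)
    (a : σ → ι → K) (L : Matrix m n F) (X : Submodule K (n → K)) (w : m → F)
    (wJ : (σ → F) →ₗ[F] (m → F)) (z : n → F) (zJ : (σ → F) →ₗ[F] (n → F)) : Prop where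
  hA : ∀ k, A k = ∑ i, a k i • vecMulVec (u i) (v i)
  hL : ∃ P : σ → F, L = B.map (algebraMap K F) + ∑ k, P k • (A k).map (algebraMap K F)
  ker_le : LinearMap.ker L.mulVecLin ≤ ext F X
  hz0 : L *ᵥ z = 0
  hzv : ∀ i, up F (v i) ⬝ᵥ z = 0 → ∀ x ∈ X, v i ⬝ᵥ x = 0
  hwu : ∀ i, w ⬝ᵥ up F (u i) = 0 → up F (u i) ∈ (ext F X).map L.mulVecLin
  hzJ : ∀ b, zJ b ∈ ext F X
  L_zJ : ∀ b, L *ᵥ zJ b = -BB u v (kap F a b) z
  i0 : ∀ x, L *ᵥ x = 0 → ∀ b, w ⬝ᵥ BB u v (kap F a b) x = 0
  i1 : ∀ b c, w ⬝ᵥ BB u v (kap F a c) (zJ b) = wJ c ⬝ᵥ BB u v (kap F a b) z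
  i2 : ∀ b c, w ⬝ᵥ BB u v (kap F a c) (zJ b) + w ⬝ᵥ BB u v (kap F a b) (zJ c) = 0
  i3 : ∀ b c d, s3 u v a wJ zJ b c d = 0
  hE2 : (ext F X).map L.mulVecLin ≤ ext F (E2 X u v)

namespace DatL

variable {B : Matrix m n K} {A : σ → Matrix m n K} {u : ι → m → K} {v : ι → n → K}
    {a : σ → ι → K} {L : Matrix m n F} {X : Submodule K (n → K)} {w : m → F}
    {wJ : (σ → F) →ₗ[F] (m → F)} {z : n → F} {zJ : (σ → F) →ₗ[F] (n → F)}

theorem zt_zJ (h : DatL B A u v a L X w wJ z zJ) {i : ι} (hi : zt v z i = 0) (b : σ → F) :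
    zt v (zJ b) i = 0 :=
  dot_of_mem (h.hzJ b) (h.hzv i hi)

theorem et_mul_sf (h : DatL B A u v a L X w wJ z zJ) (b : σ → F) :
    et u v w z * sf u v w z zJ b = nu u v w (zJ b) := by
  funext i
  rw [Pi.mul_apply, nu_apply, sf_apply]
  change om u w i * zt v z i * _ = _
  by_cases h1 : om u w i = 0
  · rw [h1]; ring
  by_cases h2 : zt v z i = 0
  · rw [h.zt_zJ h2]; ring
  have h3 : om u w i * zt v z i ≠ 0 := mul_ne_zero h1 h2
  field_simp

theorem triple_term (h : DatL B A u v a L X w wJ z zJ) {b c : σ → F}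
    (hc : phi u v w wJ z zJ c = 0) (i : ι) : om u (wJ c) i * zt v (zJ b) i =
      -(et u v w z i * (sf u v w z zJ b i * sf u v w z zJ c i)) := by
  rw [sf_apply, sf_apply]
  change _ = -(om u w i * zt v z i * _)
  by_cases h2 : zt v z i = 0
  · rw [h.zt_zJ h2]; ring
  have hc' : zt v z i * om u (wJ c) i + om u w i * zt v (zJ c) i = 0 := congrFun hc i
  by_cases h1 : om u w i = 0
  · rw [h1, zero_mul, add_zero] at hc'
    rw [(mul_eq_zero.1 hc').resolve_left h2, h1]
    ring
  have h3 : om u (wJ c) i = -(om u w i * zt v (zJ c) i) / zt v z i := by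
    field_simp
    linear_combination hc'
  rw [h3]
  field_simp

theorem q3_eq (h : DatL B A u v a L X w wJ z zJ) {b c d : σ → F}
    (hc : phi u v w wJ z zJ c = 0) : q3 u v a wJ zJ c b d =
      -(kap F a b ⬝ᵥ (et u v w z * (sf u v w z zJ d * sf u v w z zJ c))) := by
  rw [q3, dot_BB, dotProduct, dotProduct, ← Finset.sum_neg_distrib]
  refine Finset.sum_congr rfl fun i _ => ?_
  rw [nu_apply, h.triple_term hc, Pi.mul_apply, Pi.mul_apply]
  ring

theorem alg (h : DatL B A u v a L X w wJ z zJ) (h2 : (2 : F) ≠ 0) :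
    Alg (et u v w z) (kap F a ∘ₗ (LinearMap.ker (phi u v w wJ z zJ)).subtype)
      (sf u v w z zJ ∘ₗ (LinearMap.ker (phi u v w wJ z zJ)).subtype) where
  hη i hi b := by
    change sf u v w z zJ b i = 0
    have hi' : om u w i * zt v z i = 0 := hi
    rw [sf_apply, hi', _root_.inv_zero, mul_zero, zero_mul]
  h1 b c := by
    change kap F a c ⬝ᵥ (et u v w z * sf u v w z zJ b) +
      kap F a b ⬝ᵥ (et u v w z * sf u v w z zJ c) = 0
    rw [h.et_mul_sf, h.et_mul_sf, ← dot_BB, ← dot_BB]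
    exact h.i2 b c
  h3 x y t := by
    change kap F a x ⬝ᵥ (et u v w z * (sf u v w z zJ y * sf u v w z zJ t)) +
      kap F a y ⬝ᵥ (et u v w z * (sf u v w z zJ x * sf u v w z zJ t)) +
      kap F a t ⬝ᵥ (et u v w z * (sf u v w z zJ x * sf u v w z zJ y)) = 0
    have e := h.i3 x y t
    have hx : phi u v w wJ z zJ x = 0 := x.2
    have hy : phi u v w wJ z zJ y = 0 := y.2
    have ht : phi u v w wJ z zJ t = 0 := t.2
    rw [s3, h.q3_eq ht, h.q3_eq ht, h.q3_eq hy, h.q3_eq hy, h.q3_eq hx, h.q3_eq hx,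
      mul_comm (sf u v w z zJ ↑t) (sf u v w z zJ ↑x),
      mul_comm (sf u v w z zJ ↑t) (sf u v w z zJ ↑y),
      mul_comm (sf u v w z zJ ↑y) (sf u v w z zJ ↑x)] at e
    have e' : 2 * (kap F a x ⬝ᵥ (et u v w z * (sf u v w z zJ y * sf u v w z zJ t)) +
      kap F a y ⬝ᵥ (et u v w z * (sf u v w z zJ x * sf u v w z zJ t)) +
      kap F a t ⬝ᵥ (et u v w z * (sf u v w z zJ x * sf u v w z zJ y))) = 0 := by
      linear_combination -e
    exact (mul_eq_zero.1 e').resolve_left h2

theorem finrank_phi (h : DatL B A u v a L X w wJ z zJ) {c : ℕ}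
    (hc : Fintype.card ι ≤ finrank K (WW a) + c) :
    finrank F (σ → F) ≤ finrank F (LinearMap.ker (phi u v w wJ z zJ)) + c := by
  classical
  have h1 := LinearMap.finrank_range_add_finrank_ker (phi u v w wJ z zJ)
  have h2 : LinearMap.range (phi u v w wJ z zJ) ≤ perp (LinearMap.range (kap F a)) := by
    rintro _ ⟨c, rfl⟩ _ ⟨b, rfl⟩
    have e1 := h.i1 b c
    have e2 := h.i2 b c
    rw [dot_BB, dot_BB] at e1 e2
    have e3 : phi u v w wJ z zJ c ⬝ᵥ kap F a b = kap F a b ⬝ᵥ nu u v (wJ c) z +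
        kap F a b ⬝ᵥ nu u v w (zJ c) := by
      rw [dotProduct_comm, ← dotProduct_add]
      congr 1
      funext i
      change zt v z i * om u (wJ c) i + om u w i * zt v (zJ c) i =
        om u (wJ c) i * zt v z i + om u w i * zt v (zJ c) i
      ring
    rw [e3, ← e1, e2]
  have h3 := Submodule.finrank_mono h2
  have h4 := finrank_perp (LinearMap.range (kap F a))
  have h5 := Submodule.finrank_mono (ext_le_range (F := F) a)
  rw [finrank_ext] at h5
  omega

/-- The two subspaces of parameters. -/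
theorem exists_params (h : DatL B A u v a L X w wJ z zJ) (h2 : (2 : F) ≠ 0) {c : ℕ}
    (hc : Fintype.card ι ≤ finrank K (WW a) + c) :
    ∃ V W : Submodule F (σ → F),
      finrank F (σ → F) ≤ finrank F W + 3 * c ∧
      finrank F (σ → F) ≤ finrank F V + 11 * c ∧
      ∀ b ∈ V, ∀ d ∈ W, w ⬝ᵥ BB u v (kap F a d) (zJ b) = 0 := by
  have e1 := h.finrank_phi hc
  have e2 := finrank_map_codim (kap F a) (S₁ := LinearMap.ker (phi u v w wJ z zJ))
    (S := ⊤) le_top
  have e3 : LinearMap.range (kap F a ∘ₗ (LinearMap.ker (phi u v w wJ z zJ)).subtype) =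
      (LinearMap.ker (phi u v w wJ z zJ)).map (kap F a) := by
    rw [LinearMap.range_comp, Submodule.range_subtype]
  have e4 := Submodule.finrank_mono (ext_le_range (F := F) a)
  rw [finrank_ext] at e4
  rw [Submodule.map_top, finrank_top] at e2
  obtain ⟨V, W, -, f1, f2, f3⟩ := (h.alg h2).main h2 (k := 2 * c) (by
    rw [e3]
    omega)
  have g1 : finrank F (V.map (LinearMap.ker (phi u v w wJ z zJ)).subtype) =
      finrank F V := Submodule.finrank_map_subtype_eq _ _
  have g2 : finrank F (W.map (LinearMap.ker (phi u v w wJ z zJ)).subtype) =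
      finrank F W := Submodule.finrank_map_subtype_eq _ _
  refine ⟨V.map (LinearMap.ker (phi u v w wJ z zJ)).subtype,
    W.map (LinearMap.ker (phi u v w wJ z zJ)).subtype, ?_, ?_, ?_⟩
  · rw [g2]
    omega
  · rw [g1]
    omega
  · rintro _ ⟨b, hb, rfl⟩ _ ⟨d, hd, rfl⟩
    have := f3 b hb d hd
    change kap F a d ⬝ᵥ (et u v w z * sf u v w z zJ b) = 0 at this
    rw [h.et_mul_sf, ← dot_BB] at this
    exact this

theorem im_U2 (h : DatL B A u v a L X w wJ z zJ) : im A X ≤ E2 X u v := by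
  rw [im_le]
  intro k x hx
  rw [sum_mulVec_eq (h.hA k)]
  refine Submodule.sum_mem _ fun i _ => ?_
  by_cases hv : v i ⬝ᵥ x = 0
  · rw [hv, mul_zero, zero_smul]
    exact Submodule.zero_mem _
  · exact Submodule.smul_mem _ _ (Submodule.subset_span ⟨i, rfl, x, hx, hv⟩)

theorem im_U1 (h : DatL B A u v a L X w wJ z zJ) : im A (U1 X u v w) ≤ E1 X u v w := by
  rw [im_le]
  rintro k x ⟨hx, hx'⟩
  rw [sum_mulVec_eq (h.hA k)]
  refine Submodule.sum_mem _ fun i _ => ?_
  by_cases hi : w ⬝ᵥ up F (u i) = 0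
  · by_cases hv : v i ⬝ᵥ x = 0
    · rw [hv, mul_zero, zero_smul]
      exact Submodule.zero_mem _
    · exact Submodule.smul_mem _ _ (Submodule.subset_span ⟨i, rfl, hi, x, hx, hv⟩)
  · rw [hx' i hi, mul_zero, zero_smul]
    exact Submodule.zero_mem _

theorem ext_E1_le (h : DatL B A u v a L X w wJ z zJ) : ext F (E1 X u v w) ≤
    (ext F X).map L.mulVecLin := by
  rw [ext_le_iff]
  intro y hy
  rw [E1] at hy
  induction hy using Submodule.span_induction with
  | mem x hx =>
    obtain ⟨i, rfl, hi, -⟩ := hx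
    exact h.hwu i hi
  | zero => rw [up_zero]; exact Submodule.zero_mem _
  | add x y _ _ hx hy => rw [up_add]; exact Submodule.add_mem _ hx hy
  | smul c x _ hx => rw [up_smul]; exact Submodule.smul_mem _ _ hx

theorem ext_E2_le (h : DatL B A u v a L X w wJ z zJ) : ext F (E2 X u v) ≤
    (⊤ : Submodule F (ι → F)).map (BBl u v z) := by
  classical
  rw [ext_le_iff]
  intro y hy
  rw [E2] at hy
  induction hy using Submodule.span_induction with
  | mem x hx =>
    obtain ⟨i, rfl, x, hx, hi⟩ := hx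
    have h1 : up F (v i) ⬝ᵥ z ≠ 0 := fun h0 => hi (h.hzv i h0 x hx)
    refine ⟨Pi.single i (up F (v i) ⬝ᵥ z)⁻¹, Submodule.mem_top, ?_⟩
    change BB u v _ z = _
    rw [BB, Finset.sum_eq_single i]
    · rw [Pi.single_eq_same, inv_mul_cancel₀ h1, one_smul]
    · intro j _ hj
      rw [Pi.single_eq_of_ne hj, zero_mul, zero_smul]
    · intro hi
      exact absurd (Finset.mem_univ _) hi
  | zero => rw [up_zero]; exact Submodule.zero_mem _
  | add x y _ _ hx hy => rw [up_add]; exact Submodule.add_mem _ hx hy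
  | smul c x _ hx => rw [up_smul]; exact Submodule.smul_mem _ _ hx

theorem dim_E2 (h : DatL B A u v a L X w wJ z zJ) {c : ℕ}
    (hc : Fintype.card ι ≤ finrank K (WW a) + c) :
    finrank K (E2 X u v) ≤ finrank F ((ext F X).map L.mulVecLin) + c := by
  have h1 := Submodule.finrank_mono h.ext_E2_le
  rw [finrank_ext] at h1
  have h2 := finrank_map_codim (BBl u v z) (S₁ := ext F (WW a)) (S := ⊤) le_top
  rw [finrank_ext, finrank_top, finrank_fintype_fun_eq_card] at h2
  have h3 : (ext F (WW a)).map (BBl u v z) ≤ (ext F X).map L.mulVecLin := by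
    rintro _ ⟨y, hy, rfl⟩
    obtain ⟨b, rfl⟩ := ext_le_range a hy
    refine ⟨-zJ b, Submodule.neg_mem _ (h.hzJ b), ?_⟩
    change L *ᵥ (-zJ b) = BB u v (kap F a b) z
    rw [mulVec_neg, h.L_zJ, neg_neg]
  have h4 := Submodule.finrank_mono h3
  omega

/-- the rank of the pairing -/
theorem dim_nu (h : DatL B A u v a L X w wJ z zJ) (h2 : (2 : F) ≠ 0) {c : ℕ}
    (hc : Fintype.card ι ≤ finrank K (WW a) + c) :
    finrank F ((ext F X).map (nu u v w)) ≤ 16 * c := by
  classical
  obtain ⟨V, W, a1, a2, a3⟩ := h.exists_params h2 hc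
  have b0 := Submodule.finrank_mono (ext_le_range (F := F) a)
  rw [finrank_ext] at b0
  have b1 := finrank_map_codim (kap F a) (S₁ := V) (S := ⊤) le_top
  have b2 := finrank_map_codim (kap F a) (S₁ := W) (S := ⊤) le_top
  rw [Submodule.map_top, finrank_top] at b1 b2
  set T := (V.map (kap F a)).map (BBl u v z) with hT
  have b3 := finrank_map_codim (BBl u v z) (S₁ := V.map (kap F a)) (S := ⊤) le_top
  rw [← hT, finrank_top, finrank_fintype_fun_eq_card] at b3
  set XV := T.comap L.mulVecLin ⊓ ext F X with hXV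
  have c1 := finrank_map_sup L.mulVecLin (ext F X) T
  rw [← hXV] at c1
  have c2 : (ext F X).map L.mulVecLin ⊔ T ≤
      (⊤ : Submodule F (ι → F)).map (BBl u v z) :=
    sup_le (h.hE2.trans h.ext_E2_le) (Submodule.map_mono le_top)
  have c3 := Submodule.finrank_mono c2
  have d1 : finrank F (W.map (kap F a)) + finrank F (XV.map (nu u v w)) ≤
      Fintype.card ι := by
    refine finrank_perp_le _ _ ?_
    rintro _ ⟨d, hd, rfl⟩ _ ⟨x, hx, rfl⟩
    obtain ⟨_, ⟨b, hb, rfl⟩, hbx⟩ := hx.1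
    have hbx' : BB u v (kap F a b) z = L *ᵥ x := hbx
    rw [← dot_BB]
    have e1 := h.i0 (x + zJ b) (by
      rw [mulVec_add, h.L_zJ, hbx', add_neg_cancel]) d
    rw [BB_add_right, dotProduct_add, a3 b hb d hd, add_zero] at e1
    exact e1
  have d2 := finrank_map_codim (nu u v w) (S₁ := XV) (S := ext F X) inf_le_right
  rw [finrank_ext] at c1 d2
  omega

theorem dim_U (h : DatL B A u v a L X w wJ z zJ) (h2 : (2 : F) ≠ 0) {c : ℕ}
    (hc : Fintype.card ι ≤ finrank K (WW a) + c) :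
    finrank K X ≤ finrank K (U1 X u v w) + 16 * c := by
  have e1 := h.dim_nu h2 hc
  have e2 := finrank_map_add (nu u v w) (ext F X)
  have e3 := Submodule.finrank_mono (ker_nu_le X u v w)
  rw [finrank_ext] at e2 e3
  omega

end DatL

/-- `L` maps the extension of `U` to the extension of `B U + ∑ A_k U` -/
theorem map_L_le {B : Matrix m n K} {A : σ → Matrix m n K} {L : Matrix m n F}
    (hL : ∃ P : σ → F, L = B.map (algebraMap K F) + ∑ k, P k • (A k).map (algebraMap K F))
    (U : Submodule K (n → K)) : (ext F U).map L.mulVecLin ≤ ext F (imB B A U) := by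
  obtain ⟨P, rfl⟩ := hL
  rintro _ ⟨x, hx, rfl⟩
  rw [mulVecLin_apply, Matrix.add_mulVec, Matrix.sum_mulVec]
  refine Submodule.add_mem _ ?_ (Submodule.sum_mem _ fun k _ => ?_)
  · refine mulVec_mem_ext (fun w hw => ?_) hx
    exact Submodule.mem_sup_left (Submodule.mem_map_of_mem (f := B.mulVecLin) hw)
  · rw [smul_mulVec]
    refine Submodule.smul_mem _ _ (mulVec_mem_ext (fun w hw => ?_) hx)
    exact Submodule.mem_sup_right (mem_im hw k)

/-- if `L` maps `up x` into `E` and the `A_k` map `x` into `E` then so does `B` -/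
theorem B_mem {B : Matrix m n K} {A : σ → Matrix m n K} {L : Matrix m n F}
    (hL : ∃ P : σ → F, L = B.map (algebraMap K F) + ∑ k, P k • (A k).map (algebraMap K F))
    {E : Submodule F (m → F)} {x : n → K} (h1 : L *ᵥ up F x ∈ E)
    (h2 : ∀ k, up F (A k *ᵥ x) ∈ E) : up F (B *ᵥ x) ∈ E := by
  obtain ⟨P, rfl⟩ := hL
  rw [Matrix.add_mulVec, Matrix.sum_mulVec] at h1
  have h3 : ∑ k, (P k • (A k).map (algebraMap K F)) *ᵥ up F x ∈ E := by
    refine Submodule.sum_mem _ fun k _ => ?_
    rw [smul_mulVec, up_mulVec]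
    exact Submodule.smul_mem _ _ (h2 k)
  have h4 := Submodule.sub_mem _ h1 h3
  rwa [add_sub_cancel_right, up_mulVec] at h4

namespace DatL

variable {B : Matrix m n K} {A : σ → Matrix m n K} {u : ι → m → K} {v : ι → n → K}
    {a : σ → ι → K} {L : Matrix m n F} {X : Submodule K (n → K)} {w : m → F}
    {wJ : (σ → F) →ₗ[F] (m → F)} {z : n → F} {zJ : (σ → F) →ₗ[F] (n → F)}

theorem imB_X (h : DatL B A u v a L X w wJ z zJ) : imB B A X ≤ E2 X u v := by
  refine sup_le ?_ h.im_U2
  rintro _ ⟨x, hx, rfl⟩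
  rw [mulVecLin_apply, ← up_mem_iff (F := F)]
  exact B_mem h.hL (h.hE2 ⟨_, up_mem hx, rfl⟩) fun k => up_mem (im_le.1 h.im_U2 k x hx)

theorem ext_imB_le (h : DatL B A u v a L X w wJ z zJ) : ext F (imB B A (U1 X u v w)) ≤
    (ext F X).map L.mulVecLin := by
  rw [imB, ext_sup]
  refine sup_le ?_ ((ext_mono h.im_U1).trans h.ext_E1_le)
  rw [ext_le_iff]
  rintro _ ⟨x, hx, rfl⟩
  exact B_mem h.hL ⟨_, up_mem hx.1, rfl⟩ fun k => h.ext_E1_le (up_mem (im_le.1 h.im_U1 k x hx))

theorem dim_E (h : DatL B A u v a L X w wJ z zJ) (h2 : (2 : F) ≠ 0) {c : ℕ}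
    (hc : Fintype.card ι ≤ finrank K (WW a) + c) :
    finrank K (imB B A X) ≤ finrank K (imB B A (U1 X u v w)) + 17 * c := by
  have e0 := Submodule.finrank_mono h.imB_X
  have e1 := h.dim_E2 hc
  have e2 := h.dim_U h2 hc
  have hle : U1 X u v w ≤ X := fun _ hx => hx.1
  have e3 := finrank_map_codim L.mulVecLin (ext_mono (F := F) hle)
  rw [finrank_ext, finrank_ext] at e3
  have e5 := Submodule.finrank_mono (map_L_le h.hL (U1 X u v w))
  rw [finrank_ext] at e5
  omega

theorem cert (h : DatL B A u v a L X w wJ z zJ) : L.rank + finrank K X = Fintype.card n +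
    finrank F ((ext F X).map L.mulVecLin ⊔
      ext F (imB B A (U1 X u v w)) : Submodule F (m → F)) := by
  rw [sup_eq_left.2 h.ext_imB_le]
  have e1 := finrank_map_add L.mulVecLin (ext F X)
  rw [inf_eq_left.2 h.ker_le, finrank_ext] at e1
  have e2 := LinearMap.finrank_range_add_finrank_ker L.mulVecLin
  rw [finrank_fintype_fun_eq_card] at e2
  change L.rank + _ = _ at e2
  omega

end DatL

end main

end Pool.Agent.W981.Loc
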