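import Pool.Agent.W981.Loc.Point
import Pool.Agent.W981.Aff.Points

/-!
# The generator and the specialisation of ranks
-/

set_option autoImplicit false
set_option linter.unusedSectionVars false

namespace Pool.Agent.W981.Loc

open Pool.Agent.W981.Hyp Pool.Agent.W981.Blk Module Matrix MvPolynomial
open Pool.Agent.W981.Aff (imB rk exists_poly_minor le_rk det_map_sub det_deg afs)

section gp

/-- the generator: `∑ y_j ∏_{l ≠ k} (z_j - l)` -/
def gp {R : Type*} [CommRing R] {s h : ℕ} (y z : Fin h → R) (k : Fin s) : R :=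
  ∑ j, y j * ∏ l ∈ Finset.univ.erase k, (z j - ((l : ℕ) : R))

theorem map_gp {R S : Type*} [CommRing R] [CommRing S] (f : R →+* S) {s h : ℕ}
    (y z : Fin h → R) (k : Fin s) :
    f (gp y z k) = gp (fun j => f (y j)) (fun j => f (z j)) k := by
  simp only [gp, map_sum, map_mul, map_prod, map_sub, map_natCast]

theorem gp_append {R : Type*} [CommRing R] {s h h' : ℕ} (y z : Fin h → R) (y' z' : Fin h' → R)
    (k : Fin s) : gp (Fin.append y y') (Fin.append z z') k = gp y z k + gp y' z' k := by
  simp only [gp, Fin.sum_univ_add, Fin.append_left, Fin.append_right]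

theorem gp_zero {R : Type*} [CommRing R] {s h : ℕ} (z : Fin h → R) (k : Fin s) :
    gp (0 : Fin h → R) z k = 0 := by
  simp [gp]

theorem prod_erase {F : Type*} [Field F] {s : ℕ} (k k' : Fin s) (h : k' ≠ k) :
    ∏ l ∈ Finset.univ.erase k, (((k' : ℕ) : F) - ((l : ℕ) : F)) = 0 :=
  Finset.prod_eq_zero (Finset.mem_erase.2 ⟨h, Finset.mem_univ k'⟩) (sub_self _)

theorem prod_erase_ne {F : Type*} [Field F] [CharZero F] {s : ℕ} (k : Fin s) :
    ∏ l ∈ Finset.univ.erase k, (((k : ℕ) : F) - ((l : ℕ) : F)) ≠ 0 := by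
  refine Finset.prod_ne_zero_iff.2 fun l hl => ?_
  rw [sub_ne_zero]
  intro h
  have h1 := Nat.cast_injective h
  exact (Finset.mem_erase.1 hl).1 (Fin.ext h1.symm)

/-- Every vector with at most `t` nonzero entries is in the image of the generator. -/
theorem gp_real {F : Type*} [Field F] [CharZero F] {s : ℕ} (t : ℕ) : ∀ (T : Finset (Fin s))
    (x : Fin s → F), T.card ≤ t → (∀ k, k ∉ T → x k = 0) →
      ∃ y z : Fin t → F, ∀ k, gp y z k = x k := by
  induction t with
  | zero =>
    intro T x hT hx
    refine ⟨0, 0, fun k => ?_⟩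
    rw [gp_zero, hx k]
    intro hk
    have := Finset.card_pos.2 ⟨k, hk⟩
    omega
  | succ t ih =>
    intro T x hT hx
    rcases T.eq_empty_or_nonempty with h0 | ⟨k₀, hk₀⟩
    · refine ⟨0, 0, fun k => ?_⟩
      rw [gp_zero, hx k]
      rw [h0]
      exact Finset.notMem_empty k
    obtain ⟨y, z, hyz⟩ := ih (T.erase k₀) (Function.update x k₀ 0) (by
      rw [Finset.card_erase_of_mem hk₀]
      omega) (by
      intro k hk
      by_cases h : k = k₀
      · rw [h, Function.update_self]
      · rw [Function.update_of_ne h]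
        exact hx k fun h1 => hk (Finset.mem_erase.2 ⟨h, h1⟩))
    refine ⟨Fin.cons (x k₀ / ∏ l ∈ Finset.univ.erase k₀, (((k₀ : ℕ) : F) - ((l : ℕ) : F))) y,
      Fin.cons ((k₀ : ℕ) : F) z, fun k => ?_⟩
    have h2 : gp (Fin.cons (x k₀ / ∏ l ∈ Finset.univ.erase k₀,
        (((k₀ : ℕ) : F) - ((l : ℕ) : F))) y) (Fin.cons ((k₀ : ℕ) : F) z) k =
        (x k₀ / ∏ l ∈ Finset.univ.erase k₀, (((k₀ : ℕ) : F) - ((l : ℕ) : F))) *
          (∏ l ∈ Finset.univ.erase k, (((k₀ : ℕ) : F) - ((l : ℕ) : F))) + gp y z k := by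
      simp only [gp, Fin.sum_univ_succ, Fin.cons_zero, Fin.cons_succ]
    rw [h2, hyz]
    by_cases hk : k = k₀
    · rw [hk, div_mul_cancel₀ _ (prod_erase_ne k₀), Function.update_self, add_zero]
    · rw [prod_erase k k₀ (Ne.symm hk), mul_zero, zero_add, Function.update_of_ne hk]

/-- the generic point of the generator -/
noncomputable def gX (K : Type*) [Field K] (s h : ℕ) (k : Fin s) :
    MvPolynomial (Fin h × Bool) K :=
  gp (fun j => X (j, false)) (fun j => X (j, true)) k

theorem aeval_gX {K S : Type*} [Field K] [CommRing S] [Algebra K S] {s h : ℕ}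
    (p : Fin h × Bool → S) (k : Fin s) :
    aeval p (gX K s h k) = gp (fun j => p (j, false)) (fun j => p (j, true)) k := by
  have h1 := map_gp (aeval (R := K) p).toRingHom (fun j => X (j, false))
    (fun j => X (j, true)) k
  have h2 : (aeval (R := K) p).toRingHom (gX K s h k) = aeval p (gX K s h k) := rfl
  rw [← h2, gX, h1]
  have h3 : ∀ i, (aeval (R := K) p).toRingHom (X i) = p i := fun i => aeval_X p i
  simp only [h3]

theorem totalDegree_gX (K : Type*) [Field K] (s h : ℕ) (k : Fin s) :
    (gX K s h k).totalDegree ≤ s := by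
  rw [gX, gp]
  refine (totalDegree_finsetSum _ _).trans (Finset.sup_le fun j _ => ?_)
  refine (totalDegree_mul _ _).trans ?_
  have h1 : (∏ l ∈ Finset.univ.erase k, ((X (j, true) : MvPolynomial (Fin h × Bool) K) -
      ((l : ℕ) : MvPolynomial (Fin h × Bool) K))).totalDegree ≤ s - 1 := by
    refine (totalDegree_finsetProd _ _).trans ?_
    refine (Finset.sum_le_card_nsmul _ _ 1 fun l _ => ?_).trans ?_
    · refine (totalDegree_sub _ _).trans (max_le (totalDegree_X _).le ?_)
      rw [← map_natCast (C : K →+* MvPolynomial (Fin h × Bool) K), totalDegree_C]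
      exact Nat.zero_le _
    · rw [Finset.card_erase_of_mem (Finset.mem_univ k), Finset.card_univ, Fintype.card_fin,
        smul_eq_mul, mul_one]
  rw [totalDegree_X]
  have := k.2
  omega

end gp

section points

variable {τ K : Type*} [Field K] [CharZero K] [Fintype τ]

/-- a nonzero polynomial does not vanish at some point of small weight -/
theorem exists_nat_point {P : MvPolynomial τ K} (hP : P ≠ 0) :
    ∃ lam : τ → ℕ, ∑ k, lam k ≤ P.totalDegree ∧ eval (fun k => (lam k : K)) P ≠ 0 := by
  classical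
  obtain ⟨t, ht, htd⟩ := exists_top_monomial hP
  obtain ⟨s, hs, hs2⟩ := combinatorial_nullstellensatz_exists_eval_nonzero P t ht htd
    (fun i => (Finset.range (t i + 1)).image (Nat.cast : ℕ → K)) (fun i => by
      rw [Finset.card_image_of_injective _ Nat.cast_injective, Finset.card_range]
      exact Nat.lt_succ_self _)
  have hs' : ∀ i, ∃ l : ℕ, l ≤ t i ∧ (l : K) = s i := by
    intro i
    obtain ⟨l, hl, hl2⟩ := Finset.mem_image.1 (hs i)
    exact ⟨l, Nat.lt_succ_iff.1 (Finset.mem_range.1 hl), hl2⟩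
  choose lam hlam hlam2 using hs'
  refine ⟨lam, ?_, ?_⟩
  · rw [htd, Finsupp.degree_eq_sum]
    exact Finset.sum_le_sum fun k _ => hlam k
  · have h3 : s = fun k => (lam k : K) := funext fun k => (hlam2 k).symm
    rwa [h3] at hs2

/-- **The generator hits polynomials of low degree.** -/
theorem hit {s d : ℕ} {g : MvPolynomial (Fin s) K} (hg : g ≠ 0) (hd : g.totalDegree ≤ d) :
    aeval (gX K s d) g ≠ 0 := by
  classical
  obtain ⟨lam, h1, h2⟩ := exists_nat_point hg
  obtain ⟨y, z, hyz⟩ := gp_real d (Finset.univ.filter fun k => lam k ≠ 0)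
    (fun k => (lam k : K)) (by
      refine le_trans ?_ (h1.trans hd)
      rw [Finset.card_eq_sum_ones]
      refine (Finset.sum_le_sum (g := lam) fun k hk => ?_).trans
        (Finset.sum_le_sum_of_subset (Finset.filter_subset _ _))
      have h4 : lam k ≠ 0 := (Finset.mem_filter.1 hk).2
      omega) (fun k hk => by
      have h4 : lam k = 0 := by
        by_contra h5
        exact hk (Finset.mem_filter.2 ⟨Finset.mem_univ _, h5⟩)
      rw [h4, Nat.cast_zero])
  intro h0
  refine h2 ?_
  have h5 := congrArg (aeval (R := K) (fun p : Fin d × Bool => if p.2 then z p.1 else y p.1)) h0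
  rw [map_zero] at h5
  have h6 : aeval (R := K) (fun p : Fin d × Bool => if p.2 then z p.1 else y p.1)
      (aeval (gX K s d) g) = eval (fun k => (lam k : K)) g := by
    rw [← AlgHom.comp_apply, comp_aeval]
    have h7 : (fun i => aeval (R := K) (fun p : Fin d × Bool => if p.2 then z p.1 else y p.1)
        (gX K s d i)) = fun k => (lam k : K) := by
      funext k
      rw [aeval_gX]
      exact hyz k
    rw [h7]
    rfl
  rw [← h6, h5]

end points

section ranks

variable {σ K : Type*} [Field K] [Fintype σ] {n m : Type*} [Fintype n] [Fintype m]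

/-- the matrix at a point over an extension field -/
def LL (F : Type*) [Field F] [Algebra K F] (B : Matrix m n K) (A : σ → Matrix m n K)
    (P : σ → F) : Matrix m n F :=
  B.map (algebraMap K F) + ∑ k, P k • (A k).map (algebraMap K F)

/-- the matrix at a polynomial point -/
noncomputable def MM {τ : Type*} (B : Matrix m n K) (A : σ → Matrix m n K)
    (Q : σ → MvPolynomial τ K) : Matrix m n (MvPolynomial τ K) :=
  B.map C + ∑ k, Q k • (A k).map C

theorem map_MM {τ F : Type*} [Field F] [Algebra K F] (B : Matrix m n K) (A : σ → Matrix m n K)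
    (Q : σ → MvPolynomial τ K) (θ : MvPolynomial τ K →ₐ[K] F) :
    (MM B A Q).map θ.toRingHom = LL F B A (fun k => θ (Q k)) := by
  ext i j
  have h : ∀ c : K, θ.toRingHom (C c) = algebraMap K F c := fun c => θ.commutes c
  simp only [MM, LL, Matrix.map_apply, Matrix.add_apply, Matrix.sum_apply, Matrix.smul_apply,
    smul_eq_mul, map_add, map_sum, map_mul, h]
  rfl

theorem hom_rank_le {τ F : Type*} [Field F] (M : Matrix m n (MvPolynomial τ K))
    (θ : MvPolynomial τ K →+* F) : (M.map θ).rank ≤ rk M := by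
  obtain ⟨e, f, h⟩ := exists_minor (M.map θ)
  refine le_rk _ e f fun h2 => h ?_
  rw [det_map_sub, h2, map_zero]

theorem spec_le {τ F : Type*} [Field F] [Algebra K F] (B : Matrix m n K)
    (A : σ → Matrix m n K) (Q : σ → MvPolynomial τ K) (θ : MvPolynomial τ K →ₐ[K] F) :
    (LL F B A (fun k => θ (Q k))).rank ≤ rk (MM B A Q) := by
  rw [← map_MM]
  exact hom_rank_le _ _

theorem aC {τ : Type*} (c : K) : algebraMap (MvPolynomial τ K) (FF τ K) (C c) =
    algebraMap K (FF τ K) c := by
  rw [IsScalarTower.algebraMap_apply K (MvPolynomial τ K) (FF τ K), algebraMap_eq]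

theorem rk_MM {τ : Type*} (B : Matrix m n K) (A : σ → Matrix m n K)
    (Q : σ → MvPolynomial τ K) : rk (MM B A Q) =
      (LL (FF τ K) B A (fun k => algebraMap (MvPolynomial τ K) (FF τ K) (Q k))).rank := by
  rw [rk]
  congr 1
  ext i j
  simp only [MM, LL, Matrix.map_apply, Matrix.add_apply, Matrix.sum_apply, Matrix.smul_apply,
    smul_eq_mul, map_add, map_sum, map_mul, aC]

theorem MM_totalDegree {τ : Type*} (B : Matrix m n K) (A : σ → Matrix m n K)
    (Q : σ → MvPolynomial τ K) {d : ℕ} (hQ : ∀ k, (Q k).totalDegree ≤ d) (i : m) (j : n) :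
    (MM B A Q i j).totalDegree ≤ d := by
  rw [MM, Matrix.add_apply, Matrix.map_apply, Matrix.sum_apply]
  refine (totalDegree_add _ _).trans (max_le ?_ ?_)
  · rw [totalDegree_C]
    exact Nat.zero_le _
  · refine (totalDegree_finsetSum _ _).trans (Finset.sup_le fun k _ => ?_)
    rw [Matrix.smul_apply, Matrix.map_apply, smul_eq_mul]
    refine (totalDegree_mul _ _).trans ?_
    rw [totalDegree_C, add_zero]
    exact hQ k

/-- A point of small weight at which several matrices have their generic rank. -/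
theorem exists_common_point [CharZero K] {τ κ : Type*} [Fintype τ] [Fintype κ]
    (M : κ → Matrix m n (MvPolynomial τ K)) {d : ℕ} (hd : ∀ i p q, (M i p q).totalDegree ≤ d) :
    ∃ lam : τ → ℕ, ∑ k, lam k ≤ ∑ i, rk (M i) * d ∧
      ∀ i, rk (M i) ≤ ((M i).map (eval fun k => (lam k : K))).rank := by
  classical
  have h := fun i => exists_poly_minor (M i) (le_refl (rk (M i)))
  choose e f h using h
  obtain ⟨lam, h1, h2⟩ := exists_nat_point (Finset.prod_ne_zero_iff.2 fun i
    (_ : i ∈ (Finset.univ : Finset κ)) => h i)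
  refine ⟨lam, h1.trans ((totalDegree_finsetProd _ _).trans
    (Finset.sum_le_sum fun i _ => det_deg _ fun p q => hd i _ _)), fun i => ?_⟩
  rw [map_prod] at h2
  have h3 := Finset.prod_ne_zero_iff.1 h2 i (Finset.mem_univ i)
  refine le_rank_of_minor _ (e i) (f i) ?_
  rw [det_map_sub]
  exact h3

end ranks

end Pool.Agent.W981.Loc
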