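import Mathlib

/-!
# Perturbations of a matrix which do not increase the rank
-/

set_option autoImplicit false
set_option linter.unusedSectionVars false

namespace Pool.Agent.W981.Loc

open Module Matrix

section adj

variable {F : Type*} [Field F] {n p q : Type*} [Fintype n] [DecidableEq n] [Fintype p] [Fintype q]

theorem eval_lin (X : Matrix n n F) (s : F) :
    (1 + (Polynomial.X : Polynomial F) • X.map Polynomial.C).map
      (Polynomial.evalRingHom s) = 1 + s • X := by
  ext i j
  by_cases hij : i = j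
  · subst hij
    simp
    exact mul_comm _ _
  · simp [Matrix.one_apply_ne hij]
    exact mul_comm _ _

theorem eval_adj (Y : Matrix p n F) (X : Matrix n n F) (Q : Matrix n q F) (s : F) :
    (Y.map Polynomial.C * (1 + (Polynomial.X : Polynomial F) • X.map Polynomial.C).adjugate *
      Q.map Polynomial.C).map (Polynomial.evalRingHom s) = Y * (1 + s • X).adjugate * Q := by
  have h1 : (Y.map Polynomial.C).map (Polynomial.evalRingHom s) = Y := by
    ext i j
    simp
  have h2 : (Q.map Polynomial.C).map (Polynomial.evalRingHom s) = Q := by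
    ext i j
    simp
  have h3 := eval_lin X s
  have h4 := RingHom.map_adjugate (Polynomial.evalRingHom s)
    (1 + (Polynomial.X : Polynomial F) • X.map Polynomial.C)
  rw [RingHom.mapMatrix_apply, RingHom.mapMatrix_apply, h3] at h4
  rw [Matrix.map_mul, Matrix.map_mul, h1, h2, h4]

theorem adj_zero (Y : Matrix p n F) (X : Matrix n n F) (Q : Matrix n q F)
    (h : {s : F | Y * (1 + s • X).adjugate * Q = 0}.Infinite) (s : F) :
    Y * (1 + s • X).adjugate * Q = 0 := by
  have h1 : Y.map Polynomial.C * (1 + (Polynomial.X : Polynomial F) •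
      X.map Polynomial.C).adjugate * Q.map Polynomial.C = 0 := by
    refine Matrix.ext fun i j => ?_
    refine Polynomial.eq_zero_of_infinite_isRoot _ (h.mono fun t ht => ?_)
    have ht' : Y * (1 + t • X).adjugate * Q = 0 := ht
    rw [← eval_adj] at ht'
    exact congrFun (congrFun ht' i) j
  rw [← eval_adj, h1]
  ext i j
  simp

theorem adj_eq (X : Matrix n n F) (s : F) : (1 + s • X).adjugate =
    (1 + s • X).det • (1 : Matrix n n F) - s • (X * (1 + s • X).adjugate) := by
  rw [eq_sub_iff_add_eq, ← Matrix.mul_adjugate, Matrix.add_mul, Matrix.one_mul, Matrix.smul_mul]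

theorem pow_zero_of_adj [Infinite F] (X : Matrix n n F) (Q : Matrix n q F) (j : ℕ) :
    ∀ Y : Matrix p n F, {s : F | Y * (1 + s • X).adjugate * Q = 0}.Infinite →
      Y * X ^ j * Q = 0 := by
  induction j with
  | zero =>
    intro Y h
    have h1 := adj_zero Y X Q h 0
    rw [zero_smul, add_zero, Matrix.adjugate_one] at h1
    rw [pow_zero]
    exact h1
  | succ j ih =>
    intro Y h
    have h0 := adj_zero Y X Q h
    have h1 := h0 0
    rw [zero_smul, add_zero, Matrix.adjugate_one, Matrix.mul_one] at h1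
    rw [pow_succ', ← Matrix.mul_assoc]
    refine ih (Y * X) ?_
    refine Set.Infinite.mono (s := {s : F | s ≠ 0}) (fun s hs => ?_) ?_
    · have h2 := h0 s
      rw [adj_eq, Matrix.mul_sub, Matrix.sub_mul, Matrix.mul_smul, Matrix.smul_mul,
        Matrix.mul_one, h1, smul_zero, zero_sub, neg_eq_zero, Matrix.mul_smul, Matrix.smul_mul,
        smul_eq_zero] at h2
      have h3 := h2.resolve_left hs
      rw [← Matrix.mul_assoc] at h3
      exact h3
    · exact (Set.finite_singleton (0 : F)).infinite_compl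

end adj

section pert

variable {F : Type*} [Field F] {n m : Type*} [Fintype n] [DecidableEq n] [Fintype m]
  [DecidableEq m]

theorem exists_ginv (L : Matrix m n F) : ∃ G : Matrix n m F, L * G * L = L := by
  obtain ⟨g, hg⟩ := LinearMap.exists_rightInverse_of_surjective L.mulVecLin.rangeRestrict
    (LinearMap.range_rangeRestrict _)
  obtain ⟨g', hg'⟩ := LinearMap.exists_extend g
  refine ⟨LinearMap.toMatrix' g', ?_⟩
  refine Matrix.toLin'.injective (LinearMap.ext fun x => ?_)
  rw [Matrix.toLin'_mul, Matrix.toLin'_mul, Matrix.toLin'_toMatrix', LinearMap.comp_apply,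
    LinearMap.comp_apply]
  have h1 : g' (Matrix.toLin' L x) = g ⟨L.mulVecLin x, LinearMap.mem_range_self _ x⟩ := by
    rw [← hg']
    rfl
  rw [h1]
  have h2 := congrArg Subtype.val
    (LinearMap.congr_fun hg ⟨L.mulVecLin x, LinearMap.mem_range_self _ x⟩)
  exact h2

theorem ker_eq_of_rank_le {T L : Matrix m n F}
    (h1 : LinearMap.ker T.mulVecLin ≤ LinearMap.ker L.mulVecLin) (h2 : T.rank ≤ L.rank) :
    LinearMap.ker T.mulVecLin = LinearMap.ker L.mulVecLin := by
  refine Submodule.eq_of_le_of_finrank_le h1 ?_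
  have e1 := LinearMap.finrank_range_add_finrank_ker T.mulVecLin
  have e2 := LinearMap.finrank_range_add_finrank_ker L.mulVecLin
  change T.rank + _ = _ at e1
  change L.rank + _ = _ at e2
  omega

variable {L N : Matrix m n F} {G : Matrix n m F}

/-- the factorisation of the perturbed matrix -/
theorem pert_eq (_hG : L * G * L = L) (s : F) (R : Matrix n n F)
    (hR : (1 + s • (G * N)) * R = 1) :
    (L + s • N) * R = L + (1 - L * G) * (s • (N * R)) := by
  have h1 : L * R = L - s • (L * (G * N) * R) := by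
    have h2 : L * ((1 + s • (G * N)) * R) = L := by rw [hR, Matrix.mul_one]
    rw [Matrix.add_mul, Matrix.one_mul, Matrix.mul_add, Matrix.smul_mul, Matrix.mul_smul] at h2
    rw [eq_sub_iff_add_eq, Matrix.mul_assoc]
    exact h2
  rw [Matrix.add_mul, h1, Matrix.sub_mul, Matrix.one_mul, Matrix.smul_mul, Matrix.mul_smul]
  have h3 : L * (G * N) * R = L * G * (N * R) := by simp only [Matrix.mul_assoc]
  rw [h3]
  abel

theorem pert_ker (hG : L * G * L = L) (s : F) (R : Matrix n n F)
    (hR : (1 + s • (G * N)) * R = 1) (hr : (L + s • N).rank ≤ L.rank) {x : n → F}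
    (hx : L *ᵥ x = 0) : (1 - L * G) *ᵥ ((s • (N * R)) *ᵥ x) = 0 := by
  have hker : LinearMap.ker (L + (1 - L * G) * (s • (N * R))).mulVecLin ≤
      LinearMap.ker L.mulVecLin := by
    intro y hy
    have hy' : (L + (1 - L * G) * (s • (N * R))) *ᵥ y = 0 := hy
    have h1 : (L * G) * (L + (1 - L * G) * (s • (N * R))) = L := by
      rw [Matrix.mul_add, hG, ← Matrix.mul_assoc, Matrix.mul_sub, Matrix.mul_one,
        ← Matrix.mul_assoc (L * G) L G, hG, sub_self, Matrix.zero_mul, add_zero]
    have h2 := congrArg (fun t => (L * G) *ᵥ t) hy'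
    simp only [mulVec_mulVec, mulVec_zero] at h2
    rw [h1] at h2
    exact h2
  have h3 : (L + (1 - L * G) * (s • (N * R))).rank ≤ L.rank := by
    rw [← pert_eq hG s R hR]
    exact (Matrix.rank_mul_le_left _ _).trans hr
  have h4 : x ∈ LinearMap.ker (L + (1 - L * G) * (s • (N * R))).mulVecLin := by
    rw [ker_eq_of_rank_le hker h3]
    exact hx
  have h5 : (L + (1 - L * G) * (s • (N * R))) *ᵥ x = 0 := h4
  rw [Matrix.add_mulVec, hx, zero_add] at h5
  rw [mulVec_mulVec]
  exact h5

end pert

section lift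

variable {F : Type*} [Field F] {n m : Type*} [Fintype n] [DecidableEq n] [Fintype m]
  [DecidableEq m] {L N : Matrix m n F} {G : Matrix n m F}

theorem proj_ker (hG : L * G * L = L) : L * (1 - G * L) = 0 := by
  rw [Matrix.mul_sub, Matrix.mul_one, ← Matrix.mul_assoc, hG, sub_self]

theorem proj_apply (G : Matrix n m F) {x : n → F} (hx : L *ᵥ x = 0) : (1 - G * L) *ᵥ x = x := by
  rw [Matrix.sub_mulVec, Matrix.one_mulVec, ← mulVec_mulVec, hx, mulVec_zero, sub_zero]

/-- the good values of the parameter -/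
def Good (L N : Matrix m n F) (V : Set (n → F)) : Set F :=
  {s : F | (L + s • N).rank ≤ L.rank ∧ ∀ v ∈ V, ∀ x, (L + s • N) *ᵥ x = 0 → v ⬝ᵥ x = 0}

theorem det_finite (X : Matrix n n F) : {s : F | (1 + s • X).det = 0}.Finite := by
  by_contra h
  have h1 : (1 + (Polynomial.X : Polynomial F) • X.map Polynomial.C).det = 0 := by
    refine Polynomial.eq_zero_of_infinite_isRoot _ (Set.Infinite.mono (fun s hs => ?_) h)
    have hs' : (1 + s • X).det = 0 := hs
    change Polynomial.eval s _ = 0
    have h3 := eval_lin X s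
    have h4 := RingHom.map_det (Polynomial.evalRingHom s)
      (1 + (Polynomial.X : Polynomial F) • X.map Polynomial.C)
    rw [RingHom.mapMatrix_apply, h3, hs'] at h4
    exact h4
  have h2 := congrArg (Polynomial.eval 0) h1
  have h3 : (1 + (Polynomial.X : Polynomial F) • X.map Polynomial.C).map
      (Polynomial.evalRingHom 0) = 1 := by
    ext i j
    by_cases hij : i = j
    · subst hij
      simp
    · simp [Matrix.one_apply_ne hij]
  have h4 := RingHom.map_det (Polynomial.evalRingHom 0)
    (1 + (Polynomial.X : Polynomial F) • X.map Polynomial.C)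
  rw [RingHom.mapMatrix_apply, h3, h1, det_one, map_zero] at h4
  exact one_ne_zero h4.symm

theorem good_zero_left [Infinite F] (hG : L * G * L = L) (V : Set (n → F))
    (h : (Good L N V).Infinite) (j : ℕ) :
    (1 - L * G) * N * (G * N) ^ j * (1 - G * L) = 0 := by
  refine pow_zero_of_adj (G * N) (1 - G * L) j ((1 - L * G) * N) ?_
  have h1 : (Good L N V \ ({s : F | (1 + s • (G * N)).det = 0} ∪ {0})).Infinite :=
    h.sdiff ((det_finite _).union (Set.finite_singleton 0))
  refine h1.mono fun s hs => ?_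
  have hs1 := hs.1.1
  have hs2 : (1 + s • (G * N)).det ≠ 0 := fun h0 => hs.2 (Or.inl h0)
  have hs3 : s ≠ 0 := fun h0 => hs.2 (Or.inr h0)
  have hR : (1 + s • (G * N)) * ((1 + s • (G * N)).det⁻¹ • (1 + s • (G * N)).adjugate) = 1 := by
    rw [Matrix.mul_smul, Matrix.mul_adjugate, smul_smul, inv_mul_cancel₀ hs2, one_smul]
  change (1 - L * G) * N * (1 + s • (G * N)).adjugate * (1 - G * L) = 0
  refine Matrix.toLin'.injective (LinearMap.ext fun x => ?_)
  rw [map_zero, LinearMap.zero_apply, Matrix.toLin'_apply, ← mulVec_mulVec]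
  have hx : L *ᵥ ((1 - G * L) *ᵥ x) = 0 := by
    rw [mulVec_mulVec, proj_ker hG, zero_mulVec]
  have h2 := pert_ker hG s _ hR hs1 hx
  rw [Matrix.mul_smul, smul_smul, smul_mulVec, mulVec_smul, smul_eq_zero] at h2
  have h3 := h2.resolve_left (mul_ne_zero hs3 (inv_ne_zero hs2))
  rw [mulVec_mulVec, ← Matrix.mul_assoc] at h3
  exact h3

theorem good_zero_right [Infinite F] (hG : L * G * L = L) (V : Set (n → F))
    (h : (Good L N V).Infinite) {v : n → F} (hv : v ∈ V) (j : ℕ) {x : n → F}
    (hx : L *ᵥ x = 0) : v ⬝ᵥ ((G * N) ^ j *ᵥ x) = 0 := by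
  have h0 : (Matrix.of fun (_ : Unit) i => v i) * (G * N) ^ j * (1 - G * L) = 0 := by
    refine pow_zero_of_adj (G * N) (1 - G * L) j _ ?_
    have h1 : (Good L N V \ ({s : F | (1 + s • (G * N)).det = 0} ∪ {0})).Infinite :=
      h.sdiff ((det_finite _).union (Set.finite_singleton 0))
    refine h1.mono fun s hs => ?_
    have hs1 := hs.1.1
    have hs2 : (1 + s • (G * N)).det ≠ 0 := fun h0 => hs.2 (Or.inl h0)
    have hR : (1 + s • (G * N)) * ((1 + s • (G * N)).det⁻¹ • (1 + s • (G * N)).adjugate) = 1 := by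
      rw [Matrix.mul_smul, Matrix.mul_adjugate, smul_smul, inv_mul_cancel₀ hs2, one_smul]
    change (Matrix.of fun (_ : Unit) i => v i) * (1 + s • (G * N)).adjugate * (1 - G * L) = 0
    refine Matrix.toLin'.injective (LinearMap.ext fun y => ?_)
    rw [map_zero, LinearMap.zero_apply, Matrix.toLin'_apply, ← mulVec_mulVec]
    have hy : L *ᵥ ((1 - G * L) *ᵥ y) = 0 := by
      rw [mulVec_mulVec, proj_ker hG, zero_mulVec]
    have h2 := pert_ker hG s _ hR hs1 hy
    have h3 : (L + s • N) *ᵥ (((1 + s • (G * N)).det⁻¹ • (1 + s • (G * N)).adjugate) *ᵥ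
        ((1 - G * L) *ᵥ y)) = 0 := by
      rw [mulVec_mulVec, pert_eq hG s _ hR, Matrix.add_mulVec, hy, zero_add,
        ← mulVec_mulVec, h2]
    have h4 := hs.1.2 v hv _ h3
    rw [smul_mulVec, dotProduct_smul, smul_eq_mul] at h4
    have h5 := (mul_eq_zero.1 h4).resolve_left (inv_ne_zero hs2)
    funext i
    rw [← mulVec_mulVec]
    exact h5
  have h1 := congrArg (fun T => T *ᵥ x) h0
  simp only [zero_mulVec] at h1
  rw [← mulVec_mulVec, proj_apply G hx, ← mulVec_mulVec] at h1
  exact congrFun h1 ()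

end lift

end Pool.Agent.W981.Loc
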