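import Pool.Agent.W981.Loc.Dims
import Pool.Agent.W981.Loc.Pert

/-!
# The jets of the kernel at a point where the rank is locally maximal
-/

set_option autoImplicit false
set_option linter.unusedSectionVars false

namespace Pool.Agent.W981.Loc

open Pool.Agent.W981.Hyp Pool.Agent.W981.Blk Module Matrix
open Pool.Agent.W981.Aff (Alg imB lin_ext)

section polar

variable {F E M Q : Type*} [Field F] [AddCommGroup E] [Module F E] [AddCommGroup M] [Module F M]
  [AddCommGroup Q] [Module F Q]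

theorem polar2 (T : M →ₗ[F] Q) (g : M →ₗ[F] E) (a b : E →ₗ[F] M) (x : E)
    (ha : T (a (g (a x))) = 0) (hb : T (b (g (b x))) = 0)
    (hab : T ((a + b) (g ((a + b) x))) = 0) : T (a (g (b x)) + b (g (a x))) = 0 := by
  have e : T ((a + b) (g ((a + b) x))) = T (a (g (a x))) + T (b (g (b x))) +
      T (a (g (b x)) + b (g (a x))) := by
    simp only [LinearMap.add_apply, map_add]
    abel
  rw [e, ha, hb, zero_add, zero_add] at hab
  exact hab

/-- the symmetrised product of three maps -/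
def sym3 (g : M →ₗ[F] E) (a b c : E →ₗ[F] M) (x : E) : M :=
  a (g (b (g (c x)) + c (g (b x)))) + b (g (a (g (c x)) + c (g (a x)))) +
    c (g (a (g (b x)) + b (g (a x))))

theorem polar3 (T : M →ₗ[F] Q) (g : M →ₗ[F] E) (a b c : E →ₗ[F] M) (x : E)
    (ha : T (a (g (a (g (a x))))) = 0) (hb : T (b (g (b (g (b x))))) = 0)
    (hc : T (c (g (c (g (c x))))) = 0)
    (hab : T ((a + b) (g ((a + b) (g ((a + b) x))))) = 0)
    (hac : T ((a + c) (g ((a + c) (g ((a + c) x))))) = 0)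
    (hbc : T ((b + c) (g ((b + c) (g ((b + c) x))))) = 0)
    (habc : T ((a + b + c) (g ((a + b + c) (g ((a + b + c) x))))) = 0) :
    T (sym3 g a b c x) = 0 := by
  have e : T (sym3 g a b c x) = T ((a + b + c) (g ((a + b + c) (g ((a + b + c) x))))) -
      T ((a + b) (g ((a + b) (g ((a + b) x))))) - T ((a + c) (g ((a + c) (g ((a + c) x))))) -
      T ((b + c) (g ((b + c) (g ((b + c) x))))) + T (a (g (a (g (a x))))) +
      T (b (g (b (g (b x))))) + T (c (g (c (g (c x))))) := by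
    simp only [sym3, LinearMap.add_apply, map_add]
    abel
  rw [e, ha, hb, hc, hab, hac, hbc, habc]
  simp

end polar

section dual

variable {F : Type*} [Field F] {n m : Type*} [Fintype n] [Fintype m]

theorem exists_dual (S : Submodule F (n → F)) (L : Matrix m n F) (φ : (n → F) →ₗ[F] F)
    (h : ∀ x ∈ S, L *ᵥ x = 0 → φ x = 0) : ∃ w : m → F, ∀ x ∈ S, w ⬝ᵥ (L *ᵥ x) = φ x := by
  classical
  have h1 : φ.domRestrict S ∈ LinearMap.range (L.mulVecLin.domRestrict S).dualMap := by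
    rw [LinearMap.range_dualMap_eq_dualAnnihilator_ker, Submodule.mem_dualAnnihilator]
    intro x hx
    exact h x x.2 hx
  obtain ⟨ψ, hψ⟩ := h1
  refine ⟨fun i => ψ (Pi.single i 1), fun x hx => ?_⟩
  have h2 : ψ (L *ᵥ x) = φ x := LinearMap.congr_fun hψ ⟨x, hx⟩
  rw [← h2]
  have h3 : L *ᵥ x = ∑ i, (L *ᵥ x) i • Pi.single i (1 : F) := by
    funext j
    simp [Pi.single_apply]
  conv_rhs => rw [h3, map_sum]
  rw [dotProduct]
  refine Finset.sum_congr rfl fun i _ => ?_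
  rw [map_smul, smul_eq_mul, mul_comm]

end dual

section point

variable {σ ι K F : Type*} [Field K] [Field F] [Algebra K F] [DecidableEq σ] [Fintype σ]
  [Fintype ι] {n m : Type*} [Fintype n] [DecidableEq n] [Fintype m] [DecidableEq m]

/-- the matrix `A_k` over `F` -/
def NN (F : Type*) [Field F] [Algebra K F] (A : σ → Matrix m n K) (k : σ) : Matrix m n F :=
  (A k).map (algebraMap K F)

/-- the direction `μ` -/
def Nmu (F : Type*) [Field F] [Algebra K F] (A : σ → Matrix m n K) (μ : σ → ℕ) :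
    Matrix m n F := ∑ k, (μ k : F) • NN F A k

/-- the vectors `v_i` which are orthogonal to the kernel -/
def VV (v : ι → n → K) (L : Matrix m n F) : Set (n → F) :=
  {y | ∃ i, y = up F (v i) ∧ ∀ x, L *ᵥ x = 0 → up F (v i) ⬝ᵥ x = 0}

/-- All directions of weight at most three are good. -/
def AllGood (A : σ → Matrix m n K) (v : ι → n → K) (L : Matrix m n F) : Prop :=
  ∀ μ : σ → ℕ, ∑ k, μ k ≤ 3 → (Good L (Nmu F A μ) (VV v L)).Infinite

theorem Nmu_single (A : σ → Matrix m n K) (j : σ) : Nmu F A (Pi.single j 1) = NN F A j := by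
  rw [Nmu, Finset.sum_eq_single j]
  · rw [Pi.single_eq_same, Nat.cast_one, one_smul]
  · intro k _ hk
    rw [Pi.single_eq_of_ne hk, Nat.cast_zero, zero_smul]
  · intro h
    exact absurd (Finset.mem_univ _) h

theorem Nmu_add (A : σ → Matrix m n K) (μ ν : σ → ℕ) :
    Nmu F A (μ + ν) = Nmu F A μ + Nmu F A ν := by
  rw [Nmu, Nmu, Nmu, ← Finset.sum_add_distrib]
  refine Finset.sum_congr rfl fun k _ => ?_
  rw [Pi.add_apply, Nat.cast_add, add_smul]

theorem sum_single (j : σ) : ∑ k, (Pi.single j 1 : σ → ℕ) k = 1 := by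
  rw [Finset.sum_pi_single']
  simp

variable {A : σ → Matrix m n K} {v : ι → n → K} {L : Matrix m n F} {G : Matrix n m F}

section conseq

variable {Q : Type*} [AddCommGroup Q] [Module F Q]

/-- what we get from good directions for a linear map `T` -/
theorem polar_all (T : (m → F) →ₗ[F] Q) (x : n → F)
    (h1 : ∀ μ : σ → ℕ, ∑ k, μ k ≤ 3 → T (Nmu F A μ *ᵥ x) = 0)
    (h2 : ∀ μ : σ → ℕ, ∑ k, μ k ≤ 3 → T (Nmu F A μ *ᵥ (G *ᵥ (Nmu F A μ *ᵥ x))) = 0)
    (h3 : ∀ μ : σ → ℕ, ∑ k, μ k ≤ 3 →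
      T (Nmu F A μ *ᵥ (G *ᵥ (Nmu F A μ *ᵥ (G *ᵥ (Nmu F A μ *ᵥ x))))) = 0) :
    (∀ k, T (NN F A k *ᵥ x) = 0) ∧
    (∀ j k, T (NN F A j *ᵥ (G *ᵥ (NN F A k *ᵥ x)) + NN F A k *ᵥ (G *ᵥ (NN F A j *ᵥ x))) = 0) ∧
    ∀ j k l, T (sym3 G.mulVecLin (NN F A j).mulVecLin (NN F A k).mulVecLin
      (NN F A l).mulVecLin x) = 0 := by
  have s1 : ∀ j : σ, ∑ k, (Pi.single j 1 : σ → ℕ) k ≤ 3 := fun j => by
    rw [sum_single]; norm_num
  have s2 : ∀ j j' : σ, ∑ k, (Pi.single j 1 + Pi.single j' 1 : σ → ℕ) k ≤ 3 := fun j j' => by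
    simp only [Pi.add_apply, Finset.sum_add_distrib, sum_single]; norm_num
  have s3 : ∀ j j' l : σ, ∑ k, (Pi.single j 1 + Pi.single j' 1 + Pi.single l 1 : σ → ℕ) k ≤ 3 :=
    fun j j' l => by
      simp only [Pi.add_apply, Finset.sum_add_distrib, sum_single]; norm_num
  refine ⟨fun k => ?_, fun j k => ?_, fun j k l => ?_⟩
  · have := h1 _ (s1 k)
    rwa [Nmu_single] at this
  · have e1 := h2 _ (s1 j)
    have e2 := h2 _ (s1 k)
    have e3 := h2 _ (s2 j k)
    simp only [Nmu_add, Nmu_single] at e1 e2 e3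
    refine polar2 T G.mulVecLin (NN F A j).mulVecLin (NN F A k).mulVecLin x e1 e2 ?_
    rw [← Matrix.mulVecLin_add]
    exact e3
  · have e1 := h3 _ (s1 j)
    have e2 := h3 _ (s1 k)
    have e3 := h3 _ (s1 l)
    have e12 := h3 _ (s2 j k)
    have e13 := h3 _ (s2 j l)
    have e23 := h3 _ (s2 k l)
    have e123 := h3 _ (s3 j k l)
    simp only [Nmu_add, Nmu_single] at e1 e2 e3 e12 e13 e23 e123
    refine polar3 T G.mulVecLin (NN F A j).mulVecLin (NN F A k).mulVecLin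
      (NN F A l).mulVecLin x e1 e2 e3 ?_ ?_ ?_ ?_
    · rw [← Matrix.mulVecLin_add]
      exact e12
    · rw [← Matrix.mulVecLin_add]
      exact e13
    · rw [← Matrix.mulVecLin_add]
      exact e23
    · rw [← Matrix.mulVecLin_add, ← Matrix.mulVecLin_add]
      exact e123

end conseq

theorem all_left [Infinite F] (H : AllGood A v L) (hG : L * G * L = L) {x : n → F}
    (hx : L *ᵥ x = 0) :
    (∀ k, (1 - L * G) *ᵥ (NN F A k *ᵥ x) = 0) ∧
    (∀ j k, (1 - L * G) *ᵥ (NN F A j *ᵥ (G *ᵥ (NN F A k *ᵥ x)) +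
      NN F A k *ᵥ (G *ᵥ (NN F A j *ᵥ x))) = 0) ∧
    ∀ j k l, (1 - L * G) *ᵥ (sym3 G.mulVecLin (NN F A j).mulVecLin (NN F A k).mulVecLin
      (NN F A l).mulVecLin x) = 0 := by
  refine polar_all (A := A) (G := G) (1 - L * G).mulVecLin x ?_ ?_ ?_
  · intro μ hμ
    have e := congrArg (fun T => T *ᵥ x) (good_zero_left hG _ (H μ hμ) 0)
    simp only [pow_zero, Matrix.mul_one, zero_mulVec] at e
    rw [← mulVec_mulVec, proj_apply G hx, ← mulVec_mulVec] at e
    exact e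
  · intro μ hμ
    have e := congrArg (fun T => T *ᵥ x) (good_zero_left hG _ (H μ hμ) 1)
    simp only [pow_one, zero_mulVec] at e
    rw [← mulVec_mulVec, proj_apply G hx, ← mulVec_mulVec, ← mulVec_mulVec, ← mulVec_mulVec] at e
    exact e
  · intro μ hμ
    have e := congrArg (fun T => T *ᵥ x) (good_zero_left hG _ (H μ hμ) 2)
    simp only [pow_two, zero_mulVec] at e
    rw [← mulVec_mulVec, proj_apply G hx] at e
    simp only [← mulVec_mulVec] at e
    exact e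

theorem all_right [Infinite F] (H : AllGood A v L) (hG : L * G * L = L) {x : n → F}
    (hx : L *ᵥ x = 0) {y : n → F} (hy : y ∈ VV v L) :
    (∀ k, y ⬝ᵥ (G *ᵥ (NN F A k *ᵥ x)) = 0) ∧
    (∀ j k, y ⬝ᵥ (G *ᵥ (NN F A j *ᵥ (G *ᵥ (NN F A k *ᵥ x)) +
      NN F A k *ᵥ (G *ᵥ (NN F A j *ᵥ x)))) = 0) ∧
    ∀ j k l, y ⬝ᵥ (G *ᵥ (sym3 G.mulVecLin (NN F A j).mulVecLin (NN F A k).mulVecLin
      (NN F A l).mulVecLin x)) = 0 := by
  let T : (m → F) →ₗ[F] F :=
    { toFun := fun t => y ⬝ᵥ (G *ᵥ t)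
      map_add' := fun a b => by rw [mulVec_add, dotProduct_add]
      map_smul' := fun c a => by
        change y ⬝ᵥ (G *ᵥ (c • a)) = c * (y ⬝ᵥ (G *ᵥ a))
        rw [mulVec_smul, dotProduct_smul, smul_eq_mul] }
  refine polar_all (A := A) (G := G) T x ?_ ?_ ?_
  · intro μ hμ
    have e := good_zero_right hG _ (H μ hμ) hy 1 hx
    rw [pow_one, ← mulVec_mulVec] at e
    exact e
  · intro μ hμ
    have e := good_zero_right hG _ (H μ hμ) hy 2 hx
    simp only [pow_two, ← mulVec_mulVec] at e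
    exact e
  · intro μ hμ
    have e := good_zero_right hG _ (H μ hμ) hy 3 hx
    simp only [pow_succ, pow_zero, Matrix.one_mul, ← mulVec_mulVec] at e
    exact e

/-- the first jet -/
def j1 (G : Matrix n m F) (A : σ → Matrix m n K) (k : σ) (x : n → F) : n → F :=
  -(G *ᵥ (NN F A k *ᵥ x))

/-- the second jet -/
def j2 (G : Matrix n m F) (A : σ → Matrix m n K) (j k : σ) (x : n → F) : n → F :=
  G *ᵥ (NN F A j *ᵥ (G *ᵥ (NN F A k *ᵥ x)) + NN F A k *ᵥ (G *ᵥ (NN F A j *ᵥ x)))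

/-- the third jet -/
def j3 (G : Matrix n m F) (A : σ → Matrix m n K) (j k l : σ) (x : n → F) : n → F :=
  -(G *ᵥ (sym3 G.mulVecLin (NN F A j).mulVecLin (NN F A k).mulVecLin (NN F A l).mulVecLin x))

theorem L_G {y : m → F} (h : (1 - L * G) *ᵥ y = 0) : L *ᵥ (G *ᵥ y) = y := by
  rw [Matrix.sub_mulVec, Matrix.one_mulVec, sub_eq_zero] at h
  rw [mulVec_mulVec]
  exact h.symm

theorem L_j1 [Infinite F] (H : AllGood A v L) (hG : L * G * L = L) {x : n → F}
    (hx : L *ᵥ x = 0) (k : σ) : L *ᵥ j1 G A k x = -(NN F A k *ᵥ x) := by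
  rw [j1, mulVec_neg, L_G ((all_left H hG hx).1 k)]

theorem L_j2 [Infinite F] (H : AllGood A v L) (hG : L * G * L = L) {x : n → F}
    (hx : L *ᵥ x = 0) (j k : σ) :
    L *ᵥ j2 G A j k x = -(NN F A j *ᵥ j1 G A k x) - NN F A k *ᵥ j1 G A j x := by
  rw [j2, L_G ((all_left H hG hx).2.1 j k), j1, j1, mulVec_neg, mulVec_neg, neg_neg,
    sub_neg_eq_add]

theorem L_j3 [Infinite F] (H : AllGood A v L) (hG : L * G * L = L) {x : n → F}
    (hx : L *ᵥ x = 0) (j k l : σ) :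
    L *ᵥ j3 G A j k l x = -(NN F A j *ᵥ j2 G A k l x) - NN F A k *ᵥ j2 G A j l x -
      NN F A l *ᵥ j2 G A j k x := by
  rw [j3, mulVec_neg, L_G ((all_left H hG hx).2.2 j k l), sym3]
  change -(NN F A j *ᵥ j2 G A k l x + NN F A k *ᵥ j2 G A j l x + NN F A l *ᵥ j2 G A j k x) = _
  abel

/-- the space of all jets -/
def JJ (G : Matrix n m F) (A : σ → Matrix m n K) (L : Matrix m n F) : Submodule F (n → F) :=
  Submodule.span F {y | ∃ x, L *ᵥ x = 0 ∧ (y = x ∨ (∃ k, y = j1 G A k x) ∨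
    (∃ j k, y = j2 G A j k x) ∨ ∃ j k l, y = j3 G A j k l x)}

theorem ker_le_JJ : LinearMap.ker L.mulVecLin ≤ JJ G A L := fun x hx =>
  Submodule.subset_span ⟨x, hx, Or.inl rfl⟩

theorem j1_mem {x : n → F} (hx : L *ᵥ x = 0) (k : σ) : j1 G A k x ∈ JJ G A L :=
  Submodule.subset_span ⟨x, hx, Or.inr (Or.inl ⟨k, rfl⟩)⟩

theorem j2_mem {x : n → F} (hx : L *ᵥ x = 0) (j k : σ) : j2 G A j k x ∈ JJ G A L :=
  Submodule.subset_span ⟨x, hx, Or.inr (Or.inr (Or.inl ⟨j, k, rfl⟩))⟩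

theorem j3_mem {x : n → F} (hx : L *ᵥ x = 0) (j k l : σ) : j3 G A j k l x ∈ JJ G A L :=
  Submodule.subset_span ⟨x, hx, Or.inr (Or.inr (Or.inr ⟨j, k, l, rfl⟩))⟩

theorem dot_JJ [Infinite F] (H : AllGood A v L) (hG : L * G * L = L) {i : ι}
    (hi : ∀ x, L *ᵥ x = 0 → up F (v i) ⬝ᵥ x = 0) {y : n → F} (hy : y ∈ JJ G A L) :
    up F (v i) ⬝ᵥ y = 0 := by
  have hV : up F (v i) ∈ VV v L := ⟨i, rfl, hi⟩
  rw [JJ] at hy
  induction hy using Submodule.span_induction with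
  | mem y hy =>
    obtain ⟨x, hx, rfl | ⟨k, rfl⟩ | ⟨j, k, rfl⟩ | ⟨j, k, l, rfl⟩⟩ := hy
    · exact hi _ hx
    · rw [j1, dotProduct_neg, (all_right H hG hx hV).1 k, neg_zero]
    · exact (all_right H hG hx hV).2.1 j k
    · rw [j3, dotProduct_neg, (all_right H hG hx hV).2.2 j k l, neg_zero]
  | zero => rw [dotProduct_zero]
  | add x y _ _ hx hy => rw [dotProduct_add, hx, hy, add_zero]
  | smul c x _ hx => rw [dotProduct_smul, hx, smul_zero]

end point

end Pool.Agent.W981.Loc
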